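import Pool.Agent.NH4.PF.Den2

/-!
# Multiquadratic fields and the complete class: the fields
-/

set_option autoImplicit false
set_option linter.style.haveILetI false
set_option linter.unusedVariables false

open scoped Classical

namespace Pool.Agent.NH4.PF

open Finset
open Pool.Agent.NH4.PJ (dlt Cl nk OkM Ev law S_JDEN LawP S_JLOW SS)
open Pool.Agent.NH5.PR (Sol Gd eta Ok)
open Pool.Agent.NH1 (sq2 sq7 sS sI sA sB gX)
open Pool.Agent.Y703.CX (eL)

/-- the squarefree part -/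
theorem exists_sqf (N : ℤ) (hN : N ≠ 0) : ∃ D k : ℤ, Squarefree D ∧ k ≠ 0 ∧ N = D * k ^ 2 := by
  obtain ⟨a, b, h1, h2⟩ := Nat.sq_mul_squarefree N.natAbs
  have hb : b ≠ 0 := by
    rintro rfl
    rw [zero_pow (by norm_num), zero_mul] at h1
    exact hN (Int.natAbs_eq_zero.1 h1.symm)
  refine ⟨N.sign * a, b, ?_, by exact_mod_cast hb, ?_⟩
  · rw [← Int.squarefree_natAbs, Int.natAbs_mul, Int.natAbs_natCast, Int.natAbs_sign_of_ne_zero hN,
      one_mul]
    exact h2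
  · have h3 : (N.natAbs : ℤ) = (b : ℤ) ^ 2 * a := by exact_mod_cast h1.symm
    have h4 := Int.sign_mul_natAbs N
    rw [h3] at h4
    linear_combination (-1 : ℤ) * h4

/-- division of square classes -/
theorem div_sq {A E x y : ℤ} (hE : Squarefree E) (hx : x ≠ 0) (hy : y ≠ 0) (h : A * x ^ 2 = E * y ^ 2) :
    ∃ w : ℤ, w ≠ 0 ∧ A = E * w ^ 2 := by
  have hA : A ≠ 0 := by
    rintro rfl
    rw [zero_mul] at h
    exact mul_ne_zero hE.ne_zero (pow_ne_zero 2 hy) h.symm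
  obtain ⟨D, k, h1, h2, rfl⟩ := exists_sqf A hA
  have h3 : D = E := sqf_unique h1 hE (mul_ne_zero h2 hx) hy (by rw [← h]; ring)
  exact ⟨k, h2, by rw [h3]⟩

/-- division of square classes of sets -/
theorem div_set {A B k l : ℤ} {S T : Finset ℕ} (hk : k ≠ 0) (hl : l ≠ 0) (hS : PmS S) (hT : PmS T)
    (h1 : A * B = DS S * k ^ 2) (h2 : B = DS T * l ^ 2) :
    ∃ m : ℤ, m ≠ 0 ∧ A = DS (symmDiff S T) * m ^ 2 := by
  refine div_sq (hS.symmDiff hT).sqf (x := DS T * l) (y := DS (S ∩ T) * k) ?_ ?_ ?_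
  · exact mul_ne_zero hT.ne hl
  · exact mul_ne_zero (hS.mono Finset.inter_subset_left).ne hk
  · rw [h2] at h1
    linear_combination (DS T) * h1 + (k ^ 2) * DS_mul S T

/-- the sets of the square classes -/
theorem exists_V {P : Finset ℕ → Prop} {n : ℕ} {d : Fin n → ℤ} (hd : Ind d) {N D₀ : ℤ}
    (hN : Up Tr N) (hM : PO P d (N * D₀)) :
    ∃ (S₀ : Finset ℕ) (U : Finset (Fin n) → Finset ℕ), PmS S₀ ∧ Function.Injective U ∧
      ∀ T, PmS (U T) ∧ P (symmDiff S₀ (U T)) ∧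
        ∃ k : ℤ, k ≠ 0 ∧ N * ∏ i ∈ T, d i = DS (U T) * k ^ 2 := by
  obtain ⟨SN, hSN, -, k₀, hk₀, he₀⟩ := hN.set
  obtain ⟨V, hinj, hV⟩ := exists_U hd hM
  obtain ⟨hV0, -, k₁, hk₁, he₁⟩ := hV ∅
  rw [Finset.prod_empty, mul_one] at he₁
  obtain ⟨w, hw, hD₀⟩ := div_set hk₁ hk₀ hV0 hSN (A := D₀) (B := N) (by rw [← he₁]; ring) he₀
  set S₀ := symmDiff (V ∅) SN with hS₀
  have hS₀p : PmS S₀ := hV0.symmDiff hSN
  refine ⟨S₀, fun T => symmDiff (V T) S₀, hS₀p, fun T T' h => hinj ?_, fun T => ?_⟩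
  · exact symmDiff_left_injective _ h
  · obtain ⟨h1, h2, k, hk, he⟩ := hV T
    refine ⟨h1.symmDiff hS₀p, ?_, ?_⟩
    · have e : symmDiff S₀ (symmDiff (V T) S₀) = V T := by
        rw [symmDiff_comm (V T) S₀, symmDiff_symmDiff_cancel_left]
      rw [e]
      exact h2
    · exact div_set hk hw h1 hS₀p (B := D₀) (by rw [← he]; ring) hD₀

/-- the condition in terms of the sets of primes -/
theorem PO_iff {P : Finset ℕ → Prop} {n : ℕ} {d : Fin n → ℤ} {N : ℤ} (hN : Up Tr N)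
    {U : Finset (Fin n) → Finset ℕ}
    (hU : ∀ T, PmS (U T) ∧ ∃ k : ℤ, k ≠ 0 ∧ N * ∏ i ∈ T, d i = DS (U T) * k ^ 2)
    {E : ℤ} (hE : Squarefree E) : PO P d (N * E) ↔
      (AdmZ E ∧ ∀ T, P (symmDiff (pf E) (U T))) := by
  have key : AdmZ E → ∀ T, ∃ m : ℤ, m ≠ 0 ∧
      N * E * ∏ i ∈ T, d i = DS (symmDiff (pf E) (U T)) * m ^ 2 := by
    intro hA T
    obtain ⟨h1, k, hk, he⟩ := hU T
    obtain ⟨m, hm, h2⟩ := mul_set (N := E) (M := N * ∏ i ∈ T, d i) (k := 1) (l := k)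
      one_ne_zero hk hA.pm (by rw [hA.DS]; ring) he
    exact ⟨m, hm, by rw [← h2]; ring⟩
  constructor
  · intro h
    have hA : AdmZ E := by
      obtain ⟨SN, hSN, -, k₀, hk₀, he₀⟩ := hN.set
      obtain ⟨V, hV, -, k₁, hk₁, he₁⟩ := (h ∅).set
      rw [Finset.prod_empty, mul_one] at he₁
      obtain ⟨w, hw, he⟩ := div_set hk₁ hk₀ hV hSN (A := E) (B := N) (by rw [← he₁]; ring) he₀
      have h1 : E = DS (symmDiff V SN) := by
        refine sqf_unique hE (hV.symmDiff hSN).sqf one_ne_zero hw ?_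
        rw [one_pow, mul_one]
        exact he
      rw [h1]
      exact (hV.symmDiff hSN).adm
    refine ⟨hA, fun T => ?_⟩
    obtain ⟨m, hm, he⟩ := key hA T
    exact (up_iff (hA.pm.symmDiff (hU T).1) hm he).1 (h T)
  · rintro ⟨hA, h⟩ T
    obtain ⟨m, hm, he⟩ := key hA T
    exact (up_iff (hA.pm.symmDiff (hU T).1) hm he).2 (h T)

/-- balanced -/
def Bl (S : Finset ℕ) : Prop := dlt S = 0

/-- good -/
def Gg (f : ℕ → ZMod 2) (S : Finset ℕ) : Prop := dlt S = 0 ∧ Gd f S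

/-- **the proportion over a field** -/
theorem prop_field (hJ : S_JDEN) (hLP : LawP) (hlow : Low) (f : ℕ → ZMod 2) {n : ℕ}
    {d : Fin n → ℤ} (hd : Ind d) {N : ℤ} (hN : Up Tr N) (hex : ∃ D₀ : ℤ, PO Bl d (N * D₀))
    {ε : ℤ} (hε : ε = 1 ∨ ε = -1) :
    Filter.Tendsto (fun X : ℕ =>
      (((Icc 1 X).filter fun D : ℕ => Squarefree D ∧ PO (Gg f) d (N * (ε * D))).card : ℝ) /
        (((Icc 1 X).filter fun D : ℕ => Squarefree D ∧ PO Bl d (N * (ε * D))).card : ℝ))
      Filter.atTop (nhds (eta ^ 2 ^ n)) ∧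
    ∃ (c : ℝ) (X₀ : ℕ), 0 < c ∧ ∀ X : ℕ, X₀ ≤ X → c * X / Real.sqrt (eL X) ≤
      (((Icc 1 X).filter fun D : ℕ => Squarefree D ∧ PO Bl d (N * (ε * D))).card : ℝ) := by
  obtain ⟨D₀, hD₀⟩ := hex
  obtain ⟨S₀, U, hS₀, hinj, hU⟩ := exists_V hd hN hD₀
  have hcard : Fintype.card (Finset (Fin n)) = 2 ^ n := by
    rw [Fintype.card_finset, Fintype.card_fin]
  set φ : Finset (Fin n) ≃ Fin (2 ^ n) := Fintype.equivFinOfCardEq hcard with hφ
  set U' : Fin (2 ^ n) → Finset ℕ := fun t => U (φ.symm t) with hU'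
  have hfor : ∀ (Q : Finset ℕ → Prop), (∀ t, Q (U' t)) ↔ ∀ T, Q (U T) := by
    intro Q
    constructor
    · intro h T
      have := h (φ T)
      rw [hU'] at this
      simpa using this
    · intro h t
      exact h _
  have hmain := prop_main hJ hLP hlow hε (U := U') (fun t => (hU _).1)
    (fun t t' h => φ.symm.injective (hinj h)) ⟨0, by positivity⟩ f
    ⟨S₀, hS₀, fun t => (hU _).2.1⟩
  have hU2 : ∀ T, PmS (U T) ∧ ∃ k : ℤ, k ≠ 0 ∧ N * ∏ i ∈ T, d i = DS (U T) * k ^ 2 :=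
    fun T => ⟨(hU T).1, (hU T).2.2⟩
  have hpf : ∀ D : ℕ, pf (ε * D) = D.primeFactors := by
    intro D
    unfold pf
    rw [natAbs_eps hε]
  have hsqf : ∀ D : ℕ, Squarefree D ↔ Squarefree (ε * (D : ℤ)) := by
    intro D
    rw [← Int.squarefree_natAbs, natAbs_eps hε]
  have e1 : ∀ D : ℕ, (Squarefree D ∧ PO Bl d (N * (ε * D))) ↔ DB ε U' D := by
    intro D
    unfold DB
    constructor
    · rintro ⟨hs, h⟩
      obtain ⟨h1, h2⟩ := (PO_iff hN hU2 ((hsqf D).1 hs)).1 h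
      refine ⟨h1, (hfor fun V => dlt (symmDiff D.primeFactors V) = 0).2 fun T => ?_⟩
      have := h2 T
      rw [hpf] at this
      exact this
    · rintro ⟨h1, h2⟩
      refine ⟨(hsqf D).2 h1.1, (PO_iff hN hU2 h1.1).2 ⟨h1, fun T => ?_⟩⟩
      have := (hfor fun V => dlt (symmDiff D.primeFactors V) = 0).1 h2 T
      rw [hpf]
      exact this
  have e2 : ∀ D : ℕ, (Squarefree D ∧ PO (Gg f) d (N * (ε * D))) ↔ (DB ε U' D ∧ DG f U' D) := by
    intro D
    unfold DB DG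
    constructor
    · rintro ⟨hs, h⟩
      obtain ⟨h1, h2⟩ := (PO_iff hN hU2 ((hsqf D).1 hs)).1 h
      refine ⟨⟨h1, (hfor fun V => dlt (symmDiff D.primeFactors V) = 0).2 fun T => ?_⟩,
        (hfor fun V => Gd f (symmDiff D.primeFactors V)).2 fun T => ?_⟩
      · have := h2 T
        rw [hpf] at this
        exact this.1
      · have := h2 T
        rw [hpf] at this
        exact this.2
    · rintro ⟨⟨h1, h2⟩, h3⟩
      refine ⟨(hsqf D).2 h1.1, (PO_iff hN hU2 h1.1).2 ⟨h1, fun T => ?_⟩⟩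
      have h4 := (hfor fun V => dlt (symmDiff D.primeFactors V) = 0).1 h2 T
      have h5 := (hfor fun V => Gd f (symmDiff D.primeFactors V)).1 h3 T
      rw [hpf]
      exact ⟨h4, h5⟩
  have c1 : ∀ X : ℕ, ((Icc 1 X).filter fun D : ℕ => Squarefree D ∧
      PO Bl d (N * (ε * D))).card = ((Icc 1 X).filter fun D => DB ε U' D).card := fun X =>
    congrArg Finset.card (Finset.filter_congr fun D _ => e1 D)
  have c2 : ∀ X : ℕ, ((Icc 1 X).filter fun D : ℕ => Squarefree D ∧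
      PO (Gg f) d (N * (ε * D))).card = ((Icc 1 X).filter fun D => DB ε U' D ∧ DG f U' D).card :=
    fun X => congrArg Finset.card (Finset.filter_congr fun D _ => e2 D)
  refine ⟨hmain.1.congr fun X => ?_, ?_⟩
  · rw [c1, c2]
  · obtain ⟨c, X₀, hc, h⟩ := hmain.2
    exact ⟨c, X₀, hc, fun X hX => by rw [c1]; exact h X hX⟩

/-! ### The extensions -/

/-- the sums over the subsets of the indices with one index more -/
theorem prod_snoc_iff {n : ℕ} (d : Fin n → ℤ) (D : ℤ) (P : ℤ → Prop) :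
    (∀ T : Finset (Fin (n + 1)), P (∏ i ∈ T, (Fin.snoc d D : Fin (n + 1) → ℤ) i)) ↔
      (∀ T : Finset (Fin n), P (∏ i ∈ T, d i)) ∧ ∀ T : Finset (Fin n), P (D * ∏ i ∈ T, d i) := by
  have hinj : Function.Injective (Fin.castSucc : Fin n → Fin (n + 1)) := Fin.castSucc_injective n
  have h0 : ∀ T : Finset (Fin n), ∏ i ∈ T.image Fin.castSucc,
      (Fin.snoc d D : Fin (n + 1) → ℤ) i = ∏ i ∈ T, d i := by
    intro T
    rw [Finset.prod_image fun a _ b _ h => hinj h]
    exact Finset.prod_congr rfl fun i _ => Fin.snoc_castSucc _ _ _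
  have hl : ∀ T : Finset (Fin n), Fin.last n ∉ T.image Fin.castSucc := by
    intro T h
    obtain ⟨i, -, hi⟩ := Finset.mem_image.1 h
    exact (Fin.castSucc_lt_last i).ne hi
  have h1 : ∀ T : Finset (Fin n), ∏ i ∈ insert (Fin.last n) (T.image Fin.castSucc),
      (Fin.snoc d D : Fin (n + 1) → ℤ) i = D * ∏ i ∈ T, d i := by
    intro T
    rw [Finset.prod_insert (hl T), h0]
    congr 1
    exact Fin.snoc_last _ _
  constructor
  · intro h
    exact ⟨fun T => by rw [← h0]; exact h _, fun T => by rw [← h1]; exact h _⟩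
  · rintro ⟨h2, h3⟩ T
    set T' : Finset (Fin n) := univ.filter fun i => i.castSucc ∈ T with hT'
    have e : T.erase (Fin.last n) = T'.image Fin.castSucc := by
      ext i
      rw [Finset.mem_erase, Finset.mem_image]
      constructor
      · rintro ⟨g1, g2⟩
        obtain ⟨j, rfl⟩ := Fin.exists_castSucc_eq.2 g1
        exact ⟨j, Finset.mem_filter.2 ⟨Finset.mem_univ _, g2⟩, rfl⟩
      · rintro ⟨j, hj, rfl⟩
        exact ⟨(Fin.castSucc_lt_last j).ne, (Finset.mem_filter.1 hj).2⟩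
    by_cases hlT : Fin.last n ∈ T
    · rw [← Finset.insert_erase hlT, e, h1]
      exact h3 T'
    · rw [← Finset.erase_eq_of_notMem hlT, e, h0]
      exact h2 T'

theorem PO_snoc {P : Finset ℕ → Prop} {n : ℕ} (d : Fin n → ℤ) (M D : ℤ) :
    PO P (Fin.snoc d D : Fin (n + 1) → ℤ) M ↔ (PO P d M ∧ PO P d (M * D)) := by
  unfold PO
  rw [prod_snoc_iff d D (fun z => Up P (M * z))]
  simp only [mul_assoc]

/-- independence of the longer family -/
theorem ind_snoc {n : ℕ} {d : Fin n → ℤ} (hd : Ind d) {D : ℤ}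
    (h : ∀ T : Finset (Fin n), ¬ IsSquare (D * ∏ i ∈ T, d i)) :
    Ind (Fin.snoc d D : Fin (n + 1) → ℤ) := by
  intro T hT
  have hinj : Function.Injective (Fin.castSucc : Fin n → Fin (n + 1)) := Fin.castSucc_injective n
  set T' : Finset (Fin n) := univ.filter fun i => i.castSucc ∈ T with hT'
  have e : T.erase (Fin.last n) = T'.image Fin.castSucc := by
    ext i
    rw [Finset.mem_erase, Finset.mem_image]
    constructor
    · rintro ⟨g1, g2⟩
      obtain ⟨j, rfl⟩ := Fin.exists_castSucc_eq.2 g1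
      exact ⟨j, Finset.mem_filter.2 ⟨Finset.mem_univ _, g2⟩, rfl⟩
    · rintro ⟨j, hj, rfl⟩
      exact ⟨(Fin.castSucc_lt_last j).ne, (Finset.mem_filter.1 hj).2⟩
  have h0 : ∏ i ∈ T'.image Fin.castSucc, (Fin.snoc d D : Fin (n + 1) → ℤ) i = ∏ i ∈ T', d i := by
    rw [Finset.prod_image fun a _ b _ h => hinj h]
    exact Finset.prod_congr rfl fun i _ => Fin.snoc_castSucc _ _ _
  by_cases hlT : Fin.last n ∈ T
  · rw [← Finset.mul_prod_erase T _ hlT, e, h0]
    have e2 : (Fin.snoc d D : Fin (n + 1) → ℤ) (Fin.last n) = D := Fin.snoc_last _ _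
    rw [e2]
    exact h T'
  · rw [← Finset.erase_eq_of_notMem hlT, e, h0]
    refine hd T' ?_
    obtain ⟨i, hi⟩ := hT
    have hne : i ≠ Fin.last n := fun h => hlT (h ▸ hi)
    obtain ⟨j, rfl⟩ := Fin.exists_castSucc_eq.2 hne
    exact ⟨j, Finset.mem_filter.2 ⟨Finset.mem_univ _, hi⟩⟩

/-- a finite set of exceptions does not change the proportion -/
theorem tendsto_exc {A B A' B' : ℕ → Prop} [DecidablePred A] [DecidablePred B] [DecidablePred A']
    [DecidablePred B'] (E : Finset ℕ) {c : ℝ}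
    (hBA : ∀ D, B D → A D) (hA' : ∀ D, A' D ↔ (A D ∧ D ∉ E)) (hB' : ∀ D, B' D ↔ (B D ∧ D ∉ E))
    (hA : Filter.Tendsto (fun X : ℕ => (((Icc 1 X).filter A).card : ℝ)) Filter.atTop Filter.atTop)
    (h : Filter.Tendsto (fun X : ℕ => (((Icc 1 X).filter B).card : ℝ) /
      (((Icc 1 X).filter A).card : ℝ)) Filter.atTop (nhds c)) :
    Filter.Tendsto (fun X : ℕ => (((Icc 1 X).filter B').card : ℝ) /
      (((Icc 1 X).filter A').card : ℝ)) Filter.atTop (nhds c) := by
  -- the differences are bounded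
  have hdiff : ∀ (P P' : ℕ → Prop) [DecidablePred P] [DecidablePred P'],
      (∀ D, P' D ↔ (P D ∧ D ∉ E)) → ∀ X : ℕ,
      ((Icc 1 X).filter P').card ≤ ((Icc 1 X).filter P).card ∧
        ((Icc 1 X).filter P).card ≤ ((Icc 1 X).filter P').card + E.card := by
    intro P P' _ _ hP X
    constructor
    · refine Finset.card_le_card fun D hD => ?_
      obtain ⟨h1, h2⟩ := Finset.mem_filter.1 hD
      exact Finset.mem_filter.2 ⟨h1, ((hP D).1 h2).1⟩
    · refine (Finset.card_le_card (t := (Icc 1 X).filter P' ∪ E) fun D hD => ?_).trans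
        (Finset.card_union_le _ _)
      rw [Finset.mem_union, Finset.mem_filter]
      obtain ⟨g1, g2⟩ := Finset.mem_filter.1 hD
      by_cases hDE : D ∈ E
      · exact Or.inr hDE
      · exact Or.inl ⟨g1, (hP D).2 ⟨g2, hDE⟩⟩
  have hAe := hdiff A A' hA'
  have hBe := hdiff B B' hB'
  set a : ℕ → ℝ := fun X => (((Icc 1 X).filter A).card : ℝ) with ha
  set b : ℕ → ℝ := fun X => (((Icc 1 X).filter B).card : ℝ) with hb
  set a' : ℕ → ℝ := fun X => (((Icc 1 X).filter A').card : ℝ) with ha'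
  set b' : ℕ → ℝ := fun X => (((Icc 1 X).filter B').card : ℝ) with hb'
  have h1 : ∀ X, a' X ≤ a X ∧ a X ≤ a' X + E.card := fun X =>
    ⟨Nat.cast_le.2 (hAe X).1, by
      have := (Nat.cast_le (α := ℝ)).2 (hAe X).2
      rwa [Nat.cast_add] at this⟩
  have h2 : ∀ X, b' X ≤ b X ∧ b X ≤ b' X + E.card := fun X =>
    ⟨Nat.cast_le.2 (hBe X).1, by
      have := (Nat.cast_le (α := ℝ)).2 (hBe X).2
      rwa [Nat.cast_add] at this⟩
  have hE0 : Filter.Tendsto (fun X : ℕ => (E.card : ℝ) / a X) Filter.atTop (nhds 0) :=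
    hA.const_div_atTop _
  have ha1 : ∀ᶠ X in Filter.atTop, 0 < a X := hA.eventually_gt_atTop 0
  have hra : Filter.Tendsto (fun X : ℕ => a' X / a X) Filter.atTop (nhds 1) := by
    refine tendsto_of_tendsto_of_tendsto_of_le_of_le'
      (by simpa using (tendsto_const_nhds (x := (1 : ℝ))).sub hE0) tendsto_const_nhds ?_ ?_
    · filter_upwards [ha1] with X hX
      show 1 - (E.card : ℝ) / a X ≤ a' X / a X
      rw [le_div_iff₀ hX, sub_mul, div_mul_cancel₀ _ hX.ne']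
      linarith [(h1 X).2]
    · filter_upwards [ha1] with X hX
      show a' X / a X ≤ 1
      rw [div_le_one hX]
      exact (h1 X).1
  have hrb : Filter.Tendsto (fun X : ℕ => b' X / a X) Filter.atTop (nhds c) := by
    refine tendsto_of_tendsto_of_tendsto_of_le_of_le'
      (by simpa using h.sub hE0) h ?_ ?_
    · filter_upwards [ha1] with X hX
      show b X / a X - (E.card : ℝ) / a X ≤ b' X / a X
      rw [← sub_div]
      apply div_le_div_of_nonneg_right _ hX.le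
      linarith [(h2 X).2]
    · filter_upwards [ha1] with X hX
      show b' X / a X ≤ b X / a X
      exact div_le_div_of_nonneg_right (h2 X).1 hX.le
  have h3 := hrb.div hra one_ne_zero
  rw [div_one] at h3
  refine h3.congr' ?_
  filter_upwards [ha1] with X hX
  show b' X / a X / (a' X / a X) = b' X / a' X
  rw [div_div_div_cancel_right₀ hX.ne']

theorem tendsto_low {c : ℝ} {X₀ : ℕ} {N : ℕ → ℝ} (hc : 0 < c)
    (h : ∀ X : ℕ, X₀ ≤ X → c * X / Real.sqrt (eL X) ≤ N X) :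
    Filter.Tendsto N Filter.atTop Filter.atTop := by
  -- `√(log log X) ≤ √X`
  have h1 : ∀ X : ℕ, max X₀ 16 ≤ X → c * Real.sqrt X ≤ N X := by
    intro X hX
    have h16 : 16 ≤ X := le_trans (le_max_right _ _) hX
    refine le_trans ?_ (h X (le_trans (le_max_left _ _) hX))
    have hX0 : (0 : ℝ) < X := by
      have : 0 < X := by omega
      exact_mod_cast this
    have hs := Real.sqrt_pos.2 (eL_pos h16)
    rw [le_div_iff₀ hs, mul_assoc]
    refine mul_le_mul_of_nonneg_left ?_ hc.le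
    rw [← Real.sqrt_mul hX0.le]
    have h2 : eL X ≤ X := by
      unfold eL
      have h16R : (16 : ℝ) ≤ X := by exact_mod_cast h16
      have h3 : 0 < Real.log X := Real.log_pos (by linarith)
      have h4 := Real.log_le_sub_one_of_pos h3
      have h5 := Real.log_le_sub_one_of_pos hX0
      linarith
    calc Real.sqrt (X * eL X) ≤ Real.sqrt (X * X) := Real.sqrt_le_sqrt (by gcongr)
      _ = X := Real.sqrt_mul_self hX0.le
  have h2 : Filter.Tendsto (fun X : ℕ => c * Real.sqrt X) Filter.atTop Filter.atTop :=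
    (Real.tendsto_sqrt_atTop.comp tendsto_natCast_atTop_atTop).const_mul_atTop hc
  refine Filter.tendsto_atTop_mono' _ ?_ h2
  filter_upwards [Filter.eventually_ge_atTop (max X₀ 16)] with X hX
  exact h1 X hX

/-- **the proportion of the quadratic extensions of a good field** -/
theorem prop_ext (hJ : S_JDEN) (hLP : LawP) (hlow : Low) (f : ℕ → ZMod 2) {n : ℕ}
    {d : Fin n → ℤ} (hd : Ind d) {M : ℤ} (hM : PO (Gg f) d M) {ε : ℤ} (hε : ε = 1 ∨ ε = -1) :
    Filter.Tendsto (fun X : ℕ =>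
      (((Icc 1 X).filter fun D : ℕ => Squarefree D ∧ (Ind (Fin.snoc d (ε * D) : Fin (n + 1) → ℤ) ∧
          PO (Gg f) (Fin.snoc d (ε * D) : Fin (n + 1) → ℤ) M)).card : ℝ) /
      (((Icc 1 X).filter fun D : ℕ => Squarefree D ∧ (Ind (Fin.snoc d (ε * D) : Fin (n + 1) → ℤ) ∧
          PO Bl (Fin.snoc d (ε * D) : Fin (n + 1) → ℤ) M)).card : ℝ))
      Filter.atTop (nhds (eta ^ 2 ^ n)) := by
  have hMB : PO Bl d M := fun T => (hM T).mono fun S h => h.1
  have hN : Up Tr M := by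
    have h := hM ∅
    rw [Finset.prod_empty, mul_one] at h
    exact h.mono fun S _ => trivial
  obtain ⟨h1, c, X₀, hc, h2⟩ := prop_field hJ hLP hlow f hd hN
    ⟨1, by rw [mul_one]; exact hMB⟩ hε
  obtain ⟨S₀, U, hS₀, hinj, hU⟩ := exists_V hd hN (D₀ := 1) (P := Bl) (by rw [mul_one]; exact hMB)
  -- the exceptions
  set SM : Finset ℕ := U ∅ with hSM
  set E : Finset ℕ := (univ.image fun T => (DS (symmDiff (U T) SM)).natAbs).filter fun D =>
    ¬ Ind (Fin.snoc d (ε * D) : Fin (n + 1) → ℤ) with hE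
  have hexc : ∀ D : ℕ, Squarefree D → D ∉ E → Ind (Fin.snoc d (ε * D) : Fin (n + 1) → ℤ) := by
    intro D hs hDE
    by_contra hni
    apply hDE
    rw [hE, Finset.mem_filter]
    refine ⟨?_, hni⟩
    -- some product is a square
    have h3 : ∃ T : Finset (Fin n), IsSquare (ε * (D : ℤ) * ∏ i ∈ T, d i) := by
      by_contra hall
      push Not at hall
      exact hni (ind_snoc hd hall)
    obtain ⟨T, hsq⟩ := h3
    obtain ⟨w, hw⟩ := hsq
    obtain ⟨hT, -, k, hk, he⟩ := hU T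
    obtain ⟨h0, -, k₀, hk₀, he₀⟩ := hU ∅
    rw [Finset.prod_empty, mul_one] at he₀
    obtain ⟨m, hm, he2⟩ := div_set hk hk₀ hT h0 (A := ∏ i ∈ T, d i) (B := M)
      (by rw [← he]; ring) he₀
    refine Finset.mem_image.2 ⟨T, Finset.mem_univ _, ?_⟩
    show (DS (symmDiff (U T) SM)).natAbs = D
    have hV := hT.symmDiff h0
    have hsD : Squarefree (ε * (D : ℤ)) := by
      rw [← Int.squarefree_natAbs, natAbs_eps hε]
      exact hs
    have hw0 : w ≠ 0 := by
      rintro rfl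
      rw [mul_zero, he2] at hw
      exact mul_ne_zero hsD.ne_zero (mul_ne_zero hV.ne (pow_ne_zero 2 hm)) hw
    have h5 : ε * (D : ℤ) = DS (symmDiff (U T) (U ∅)) := by
      refine sqf_unique hsD hV.sqf (k := DS (symmDiff (U T) (U ∅)) * m) (k' := w)
        (mul_ne_zero hV.ne hm) hw0 ?_
      rw [he2] at hw
      linear_combination (DS (symmDiff (U T) (U ∅))) * hw
    rw [hSM, ← h5, natAbs_eps hε]
  refine tendsto_exc (A := fun D : ℕ => Squarefree D ∧ PO Bl d (M * (ε * D)))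
    (B := fun D : ℕ => Squarefree D ∧ PO (Gg f) d (M * (ε * D))) E ?_ ?_ ?_ ?_ h1
  · rintro D ⟨h3, h4⟩
    exact ⟨h3, fun T => (h4 T).mono fun S h => h.1⟩
  · intro D
    constructor
    · rintro ⟨h3, h4, h5⟩
      refine ⟨⟨h3, ((PO_snoc d M _).1 h5).2⟩, fun h6 => ?_⟩
      exact (Finset.mem_filter.1 h6).2 h4
    · rintro ⟨⟨h3, h4⟩, h5⟩
      exact ⟨h3, hexc D h3 h5, (PO_snoc d M _).2 ⟨hMB, h4⟩⟩
  · intro D
    constructor
    · rintro ⟨h3, h4, h5⟩
      refine ⟨⟨h3, ((PO_snoc d M _).1 h5).2⟩, fun h6 => ?_⟩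
      exact (Finset.mem_filter.1 h6).2 h4
    · rintro ⟨⟨h3, h4⟩, h5⟩
      exact ⟨h3, hexc D h3 h5, (PO_snoc d M _).2 ⟨hM, h4⟩⟩
  · exact tendsto_low hc h2

end Pool.Agent.NH4.PF
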