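import Pool.Agent.NH4.PF.Sq
import Pool.Agent.NH4.PJ.LOW

/-!
# Multiquadratic fields and the complete class: the proportion
-/

set_option autoImplicit false
set_option linter.style.haveILetI false
set_option linter.unusedVariables false

open scoped Classical

namespace Pool.Agent.NH4.PF

open Finset
open Pool.Agent.NH4.PJ (dlt Cl nk OkM Ev law S_JDEN LawP S_JLOW)
open Pool.Agent.NH5.PR (Sol Gd eta Ok)
open Pool.Agent.NH1 (sq2 sq7 sS sI sA sB)
open Pool.Agent.Y703.CX (eL)
open Pool.Agent.Y703.CQ (nr)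

/-! ### The good sets -/

theorem sol_congr {f : ℕ → ZMod 2} {S : Finset ℕ} {x y : ℕ → ZMod 2} (h : ∀ p ∈ S, x p = y p) :
    Sol f S x ↔ Sol f S y := by
  unfold Sol
  refine and_congr (forall₂_congr fun p hp => by rw [h p hp]) (forall₂_congr fun p hp => ?_)
  rw [h p hp, Finset.sum_congr rfl fun q hq => by rw [h q hq]]

theorem sol_zero (f : ℕ → ZMod 2) (S : Finset ℕ) : Sol f S fun p => if p ∈ (∅ : Finset ℕ) then 1 else 0 := by
  refine ⟨fun p _ _ => by simp, fun p _ _ => by simp⟩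

theorem nk_one_iff {f : ℕ → ZMod 2} {S : Finset ℕ} : nk f S = 2 ^ 0 ↔ Gd f S := by
  rw [pow_zero]
  unfold nk
  constructor
  · intro h x hx p hp
    obtain ⟨T₀, hT₀⟩ := Finset.card_eq_one.1 h
    have h1 : ∅ ∈ S.powerset.filter fun T => Sol f S fun p => if p ∈ T then 1 else 0 :=
      Finset.mem_filter.2 ⟨Finset.empty_mem_powerset S, sol_zero f S⟩
    have h2 : (S.filter fun p => x p = 1) ∈
        S.powerset.filter fun T => Sol f S fun p => if p ∈ T then 1 else 0 := by
      refine Finset.mem_filter.2 ⟨Finset.mem_powerset.2 (Finset.filter_subset _ _), ?_⟩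
      refine (sol_congr fun q hq => ?_).1 hx
      by_cases h3 : x q = 1
      · rw [if_pos (Finset.mem_filter.2 ⟨hq, h3⟩), h3]
      · have h5 : q ∉ S.filter (fun p => x p = 1) := fun h => h3 (Finset.mem_filter.1 h).2
        rw [if_neg h5]
        revert h3
        generalize x q = w
        revert w
        decide
    rw [hT₀, Finset.mem_singleton] at h1 h2
    have h3 : p ∉ S.filter fun p => x p = 1 := by
      rw [h2, ← h1]
      exact Finset.notMem_empty p
    have h4 : x p ≠ 1 := fun h => h3 (Finset.mem_filter.2 ⟨hp, h⟩)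
    revert h4
    generalize x p = w
    revert w
    decide
  · intro h
    rw [Finset.card_eq_one]
    refine ⟨∅, ?_⟩
    ext T
    rw [Finset.mem_filter, Finset.mem_singleton, Finset.mem_powerset]
    constructor
    · rintro ⟨h1, h2⟩
      rw [Finset.eq_empty_iff_forall_notMem]
      intro p hp
      have h3 := h _ h2 p (h1 hp)
      rw [if_pos hp] at h3
      exact one_ne_zero h3
    · rintro rfl
      exact ⟨Finset.empty_subset S, sol_zero f S⟩

/-! ### Sums of ratios -/

theorem ratio_sum {ι : Type} (I : Finset ι) (G N : ι → ℕ → ℕ) (c : ℝ)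
    (hGN : ∀ i ∈ I, ∀ X, G i X ≤ N i X)
    (h : ∀ i ∈ I, Filter.Tendsto (fun X => (G i X : ℝ) / N i X) Filter.atTop (nhds c))
    (hN : ∀ᶠ X in Filter.atTop, 0 < ∑ i ∈ I, N i X) :
    Filter.Tendsto (fun X => ((∑ i ∈ I, G i X : ℕ) : ℝ) / ((∑ i ∈ I, N i X : ℕ) : ℝ))
      Filter.atTop (nhds c) := by
  rw [Metric.tendsto_atTop']
  intro ε hε
  have h1 : ∀ i ∈ I, ∀ᶠ X in Filter.atTop, |(G i X : ℝ) - c * N i X| ≤ ε / 2 * N i X := by
    intro i hi
    have h2 := (Metric.tendsto_nhds.1 (h i hi)) (ε / 2) (by positivity)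
    filter_upwards [h2] with X hX
    rw [Real.dist_eq] at hX
    rcases Nat.eq_zero_or_pos (N i X) with h0 | h0
    · have h3 := hGN i hi X
      rw [h0] at h3 ⊢
      rw [Nat.le_zero.1 h3]
      simp
    · have hN0 : (0 : ℝ) < N i X := by exact_mod_cast h0
      have e : (G i X : ℝ) - c * N i X = ((G i X : ℝ) / N i X - c) * N i X := by
        rw [sub_mul, div_mul_cancel₀ _ hN0.ne']
      rw [e, abs_mul, abs_of_pos hN0]
      exact mul_le_mul_of_nonneg_right hX.le hN0.le
  have h2 : ∀ᶠ X in Filter.atTop, ∀ i ∈ I, |(G i X : ℝ) - c * N i X| ≤ ε / 2 * N i X :=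
    (Filter.eventually_all_finset I).2 h1
  obtain ⟨X₀, hX₀⟩ := Filter.eventually_atTop.1 (h2.and hN)
  refine ⟨X₀, fun X hX => ?_⟩
  obtain ⟨h3, h4⟩ := hX₀ X hX.le
  have hS : (0 : ℝ) < ((∑ i ∈ I, N i X : ℕ) : ℝ) := by exact_mod_cast h4
  rw [Real.dist_eq]
  have e : ((∑ i ∈ I, G i X : ℕ) : ℝ) / ((∑ i ∈ I, N i X : ℕ) : ℝ) - c =
      (∑ i ∈ I, ((G i X : ℝ) - c * N i X)) / ((∑ i ∈ I, N i X : ℕ) : ℝ) := by
    rw [Finset.sum_sub_distrib, ← Finset.mul_sum, eq_div_iff hS.ne', sub_mul,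
      div_mul_cancel₀ _ hS.ne']
    push_cast
    ring
  rw [e, abs_div, abs_of_pos hS, div_lt_iff₀ hS]
  calc |∑ i ∈ I, ((G i X : ℝ) - c * N i X)| ≤ ∑ i ∈ I, |(G i X : ℝ) - c * N i X| :=
        Finset.abs_sum_le_sum_abs _ _
    _ ≤ ∑ i ∈ I, ε / 2 * N i X := Finset.sum_le_sum h3
    _ = ε / 2 * ((∑ i ∈ I, N i X : ℕ) : ℝ) := by
        rw [← Finset.mul_sum]
        push_cast
        rfl
    _ < ε * ((∑ i ∈ I, N i X : ℕ) : ℝ) := by
        apply mul_lt_mul_of_pos_right _ hS
        linarith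

/-! ### The numbers with given common part -/

/-- the numbers of the class with `∏ (T)` as the part dividing `W` -/
theorem symm_split {S' e V W : Finset ℕ} (hS : Disjoint S' W) (he : e ⊆ W) (hV : V ⊆ W) :
    symmDiff (S' ∪ e) V = S' ∪ symmDiff e V := by
  ext p
  have h1 : p ∈ S' → p ∉ W := fun h h' => Finset.disjoint_left.1 hS h h'
  have h2 : p ∈ e → p ∈ W := fun h => he h
  have h3 : p ∈ V → p ∈ W := fun h => hV h
  simp only [Finset.mem_symmDiff, Finset.mem_union]
  tauto

theorem symm_sub {e V W : Finset ℕ} (he : e ⊆ W) (hV : V ⊆ W) : symmDiff e V ⊆ W := by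
  intro p hp
  rcases Finset.mem_symmDiff.1 hp with h | h
  · exact he h.1
  · exact hV h.1

variable {M : ℕ}

/-- the numbers of the class of sign `ε`, all twists balanced -/
def DB (ε : ℤ) (U : Fin M → Finset ℕ) (D : ℕ) : Prop :=
  AdmZ (ε * D) ∧ ∀ t, dlt (symmDiff D.primeFactors (U t)) = 0

/-- the good ones -/
def DG (f : ℕ → ZMod 2) (U : Fin M → Finset ℕ) (D : ℕ) : Prop :=
  ∀ t, Gd f (symmDiff D.primeFactors (U t))

/-- the union of the sets -/
noncomputable def WU (U : Fin M → Finset ℕ) : Finset ℕ := univ.biUnion U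

theorem sub_WU (U : Fin M → Finset ℕ) (t : Fin M) : U t ⊆ WU U :=
  Finset.subset_biUnion_of_mem U (Finset.mem_univ t)

/-- the indices: the common part and the residue of the cofactor -/
noncomputable def Idx (ε : ℤ) (U : Fin M → Finset ℕ) : Finset (Finset ℕ × ℕ) :=
  ((WU U).powerset ×ˢ ({1, 3, 5, 7} : Finset ℕ)).filter fun z =>
    (∀ t t', dlt (symmDiff z.1 (U t)) = dlt (symmDiff z.1 (U t'))) ∧
      (ε * ((z.2 : ℤ) * (∏ p ∈ z.1, p : ℕ))) % 4 = 1

theorem natAbs_eps {ε : ℤ} (hε : ε = 1 ∨ ε = -1) (D : ℕ) : (ε * (D : ℤ)).natAbs = D := by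
  rw [Int.natAbs_mul, Int.natAbs_natCast]
  rcases hε with rfl | rfl <;> simp

theorem dlt_union {S T : Finset ℕ} (h : Disjoint S T) : dlt (S ∪ T) = dlt S + dlt T :=
  Pool.Agent.NH4.PJ.dlt_union h

/-- **the decomposition** -/
theorem card_split {ε : ℤ} (hε : ε = 1 ∨ ε = -1) {U : Fin M → Finset ℕ} (hU : ∀ t, PmS (U t))
    (t₀ : Fin M) (R : Finset ℕ → Prop) (X : ℕ) :
    ((Icc 1 X).filter fun D => DB ε U D ∧ ∀ t, R (symmDiff D.primeFactors (U t))).card =
      ∑ z ∈ Idx ε U, ((Icc 1 (X / ∏ p ∈ z.1, p)).filter fun D => Squarefree D ∧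
        Cl (∏ p ∈ WU U, p) z.2 (- dlt (symmDiff z.1 (U t₀))) D.primeFactors ∧
          ∀ t, R (D.primeFactors ∪ symmDiff z.1 (U t))).card := by
  set W := WU U with hW
  have hWp : PmS W := by
    intro p hp
    obtain ⟨t, -, ht⟩ := Finset.mem_biUnion.1 hp
    exact hU t p ht
  set F : ℕ → Finset ℕ × ℕ := fun D =>
    (D.primeFactors ∩ W, (D / ∏ p ∈ D.primeFactors ∩ W, p) % 8) with hF
  -- the decomposition of a squarefree number
  have key : ∀ D : ℕ, Squarefree D → (∏ p ∈ D.primeFactors ∩ W, p) * (D / ∏ p ∈ D.primeFactors ∩ W, p) = D := by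
    intro D hD
    refine Nat.mul_div_cancel' ?_
    calc (∏ p ∈ D.primeFactors ∩ W, p) ∣ ∏ p ∈ D.primeFactors, p :=
          Finset.prod_dvd_prod_of_subset _ _ _ Finset.inter_subset_left
      _ = D := Nat.prod_primeFactors_of_squarefree hD
  have key2 : ∀ D : ℕ, Squarefree D →
      (D / ∏ p ∈ D.primeFactors ∩ W, p) = ∏ p ∈ D.primeFactors \ W, p := by
    intro D hD
    have h1 := key D hD
    have h2 : (∏ p ∈ D.primeFactors ∩ W, p) * ∏ p ∈ D.primeFactors \ W, p = D := by
      rw [Finset.prod_inter_mul_prod_sdiff]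
      exact Nat.prod_primeFactors_of_squarefree hD
    have h0 : (∏ p ∈ D.primeFactors ∩ W, p) ≠ 0 :=
      Finset.prod_ne_zero_iff.2 fun p hp => (Nat.prime_of_mem_primeFactors (Finset.mem_inter.1 hp).1).ne_zero
    exact Nat.eq_of_mul_eq_mul_left (Nat.pos_of_ne_zero h0) (h1.trans h2.symm)
  have hsq : ∀ D : ℕ, DB ε U D → Squarefree D := by
    intro D hD
    have h := Int.squarefree_natAbs.2 hD.1.1
    rwa [natAbs_eps hε] at h
  have hmaps : ∀ D ∈ (Icc 1 X).filter fun D => DB ε U D ∧ ∀ t, R (symmDiff D.primeFactors (U t)),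
      F D ∈ Idx ε U := by
    intro D hD
    obtain ⟨hD1, hDB, hR⟩ := Finset.mem_filter.1 hD
    have hs := hsq D hDB
    have hDp : PmS D.primeFactors := by
      have := hDB.1.pm
      unfold pf at this
      rwa [natAbs_eps hε] at this
    have hsplit : D.primeFactors = (D.primeFactors \ W) ∪ (D.primeFactors ∩ W) := by
      rw [Finset.sdiff_union_inter]
    have hdis : Disjoint (D.primeFactors \ W) W := Finset.sdiff_disjoint
    unfold Idx
    rw [Finset.mem_filter, Finset.mem_product, Finset.mem_powerset]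
    have hd : ∀ t, dlt (symmDiff (D.primeFactors ∩ W) (U t)) = - dlt (D.primeFactors \ W) := by
      intro t
      have h1 := hDB.2 t
      rw [hsplit, symm_split hdis Finset.inter_subset_right (sub_WU U t), dlt_union] at h1
      · linarith
      · exact Finset.disjoint_of_subset_right (symm_sub Finset.inter_subset_right (sub_WU U t)) hdis
    have hodd : ∀ S : Finset ℕ, PmS S → (∏ p ∈ S, p) % 2 = 1 := by
      intro S hS
      refine Nat.odd_iff.1 (Finset.prod_induction _ Odd (fun a b ha hb => ha.mul hb) odd_one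
        fun p hp => (hS p hp).1.odd_of_ne_two (hS p hp).2.1)
    refine ⟨⟨Finset.inter_subset_right, ?_⟩, fun t t' => ?_, ?_⟩
    · show (D / ∏ p ∈ D.primeFactors ∩ W, p) % 8 ∈ _
      rw [key2 D hs]
      have h1 := hodd (D.primeFactors \ W) (hDp.mono Finset.sdiff_subset)
      have h2 : (∏ p ∈ D.primeFactors \ W, p) % 8 = 1 ∨ (∏ p ∈ D.primeFactors \ W, p) % 8 = 3 ∨
        (∏ p ∈ D.primeFactors \ W, p) % 8 = 5 ∨ (∏ p ∈ D.primeFactors \ W, p) % 8 = 7 := by omega
      simp only [Finset.mem_insert, Finset.mem_singleton]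
      exact h2
    · show dlt (symmDiff (D.primeFactors ∩ W) (U t)) = dlt (symmDiff (D.primeFactors ∩ W) (U t'))
      rw [hd t, hd t']
    · show (ε * (((D / ∏ p ∈ D.primeFactors ∩ W, p) % 8 : ℕ) * (∏ p ∈ D.primeFactors ∩ W, p : ℕ) : ℤ)) % 4 = 1
      have h1 := hDB.1.2.1
      have h2 := key D hs
      set a := ∏ p ∈ D.primeFactors ∩ W, p
      set c := D / a
      rw [← h2] at h1
      push_cast at h1 ⊢
      have h3 : (((c : ℤ) % 8) * a) % 4 = ((a : ℤ) * c) % 4 := by
        rw [Int.mul_emod, Int.emod_emod_of_dvd (c : ℤ) (by norm_num : (4 : ℤ) ∣ 8), ← Int.mul_emod, mul_comm]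
      rw [Int.mul_emod, h3, ← Int.mul_emod]
      exact h1
  rw [Finset.card_eq_sum_card_fiberwise hmaps]
  refine Finset.sum_congr rfl fun z hz => ?_
  obtain ⟨hz1, hz2, hz3⟩ := Finset.mem_filter.1 hz
  obtain ⟨he, hr⟩ := Finset.mem_product.1 hz1
  rw [Finset.mem_powerset] at he
  set a : ℕ := ∏ p ∈ z.1, p with ha
  have hep : PmS z.1 := hWp.mono he
  have ha0 : 0 < a := Finset.prod_pos fun p hp => (hep p hp).1.pos
  have haf : a.primeFactors = z.1 := Nat.primeFactors_prod fun p hp => (hep p hp).1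
  have hasq : Squarefree a := by
    have := Int.squarefree_natAbs.2 hep.sqf
    rwa [DS_natAbs] at this
  -- numbers prime to `W`
  have hcl : ∀ (D : ℕ) (v : ℤ) (r : ℕ), Cl (∏ p ∈ W, p) r v D.primeFactors →
      Disjoint D.primeFactors W := by
    intro D v r h
    rw [Finset.disjoint_left]
    intro p hp hpW
    exact (h.1 p hp).2 (Dvd.dvd.mul_left (Finset.dvd_prod_of_mem (fun p => p) hpW) 14)
  refine Finset.card_bij' (fun D _ => D / a) (fun D _ => D * a) ?_ ?_ ?_ ?_
  · -- forward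
    intro D hD
    obtain ⟨hD0, hFz⟩ := Finset.mem_filter.1 hD
    obtain ⟨hD1, hDB, hR⟩ := Finset.mem_filter.1 hD0
    have hs := hsq D hDB
    have hDp : PmS D.primeFactors := by
      have := hDB.1.pm
      unfold pf at this
      rwa [natAbs_eps hε] at this
    have e1 : D.primeFactors ∩ W = z.1 := congrArg Prod.fst hFz
    have e2 : (D / a) % 8 = z.2 := by
      have := congrArg Prod.snd hFz
      rw [← this]
      show _ = (D / ∏ p ∈ D.primeFactors ∩ W, p) % 8
      rw [e1]
    have e3 : D / a = ∏ p ∈ D.primeFactors \ W, p := by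
      rw [← key2 D hs, e1]
    have e4 : (D / a).primeFactors = D.primeFactors \ W := by
      rw [e3]
      exact Nat.primeFactors_prod fun p hp => (hDp p (Finset.mem_sdiff.1 hp).1).1
    have hsplit : D.primeFactors = (D / a).primeFactors ∪ z.1 := by
      rw [e4, ← e1, Finset.sdiff_union_inter]
    have hdis : Disjoint (D / a).primeFactors W := by
      rw [e4]
      exact Finset.sdiff_disjoint
    rw [Finset.mem_filter, Finset.mem_Icc]
    have hle : D / a ≤ X / a := Nat.div_le_div_right (Finset.mem_Icc.1 hD1).2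
    have hpos : 1 ≤ D / a := by
      rw [e3]
      exact Finset.prod_pos fun p hp => (hDp p (Finset.mem_sdiff.1 hp).1).1.pos
    refine ⟨⟨hpos, hle⟩, ?_, ⟨?_, ?_, ?_⟩, ?_⟩
    · have h1 : D / a ∣ D := Nat.div_dvd_of_dvd ⟨D / a, by
        have := key D hs
        rw [e1] at this
        exact this.symm⟩
      exact hs.squarefree_of_dvd h1
    · intro p hp
      rw [e4, Finset.mem_sdiff] at hp
      have h1 := hDp p hp.1
      refine ⟨h1.1, fun h => ?_⟩
      rcases (Nat.Prime.dvd_mul h1.1).1 h with h2 | h2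
      · have h3 : p ∣ 2 * 7 := by simpa using h2
        rcases (Nat.Prime.dvd_mul h1.1).1 h3 with h4 | h4
        · exact h1.2.1 ((Nat.prime_dvd_prime_iff_eq h1.1 Nat.prime_two).1 h4)
        · exact h1.2.2 ((Nat.prime_dvd_prime_iff_eq h1.1 (by norm_num)).1 h4)
      · obtain ⟨q, hq, h3⟩ := (h1.1.prime.dvd_finsetProd_iff _).1 h2
        have h4 : p = q := (Nat.prime_dvd_prime_iff_eq h1.1 (hWp q hq).1).1 h3
        rw [h4] at hp
        exact hp.2 hq
    · have h1 := hDB.2 t₀
      rw [hsplit, symm_split hdis he (sub_WU U t₀), dlt_union] at h1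
      · linarith
      · exact Finset.disjoint_of_subset_right (symm_sub he (sub_WU U t₀)) hdis
    · rw [Nat.prod_primeFactors_of_squarefree]
      · exact e2
      · have h1 : D / a ∣ D := Nat.div_dvd_of_dvd ⟨D / a, by
          have := key D hs
          rw [e1] at this
          exact this.symm⟩
        exact hs.squarefree_of_dvd h1
    · intro t
      have h1 := hR t
      rw [hsplit, symm_split hdis he (sub_WU U t)] at h1
      exact h1
  · -- backward
    intro D hD
    obtain ⟨hD1, hs, hC, hR⟩ := Finset.mem_filter.1 hD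
    have hdis := hcl D _ _ hC
    have hD0 : D ≠ 0 := hs.ne_zero
    have hcop : Nat.Coprime D a := by
      rw [Nat.coprime_iff_gcd_eq_one]
      by_contra hg
      obtain ⟨p, hp, hpg⟩ := Nat.exists_prime_and_dvd hg
      have h1 : p ∈ D.primeFactors :=
        Nat.mem_primeFactors.2 ⟨hp, hpg.trans (Nat.gcd_dvd_left _ _), hD0⟩
      have h2 : p ∈ a.primeFactors :=
        Nat.mem_primeFactors.2 ⟨hp, hpg.trans (Nat.gcd_dvd_right _ _), ha0.ne'⟩
      rw [haf] at h2
      exact Finset.disjoint_left.1 hdis h1 (he h2)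
    have hpfm : (D * a).primeFactors = D.primeFactors ∪ z.1 := by
      rw [Nat.primeFactors_mul hD0 ha0.ne', haf]
    have hsq2 : Squarefree (D * a) := (Nat.squarefree_mul_iff).2 ⟨hcop, hs, hasq⟩
    have hDp : PmS (D * a).primeFactors := by
      rw [hpfm]
      refine PmS.union (fun p hp => ?_) hep
      obtain ⟨h1, h2⟩ := hC.1 p hp
      refine ⟨h1, ?_, ?_⟩
      · rintro rfl
        exact h2 (Dvd.dvd.mul_right (by norm_num) _)
      · rintro rfl
        exact h2 (Dvd.dvd.mul_right (by norm_num) _)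
    have hin : (D.primeFactors ∪ z.1) ∩ W = z.1 := by
      rw [Finset.union_inter_distrib_right, Finset.disjoint_iff_inter_eq_empty.1 hdis,
        Finset.empty_union, Finset.inter_eq_left.2 he]
    have hD8 : D % 8 = z.2 := by
      have := hC.2.2
      rwa [Nat.prod_primeFactors_of_squarefree hs] at this
    rw [Finset.mem_filter, Finset.mem_filter, Finset.mem_Icc]
    have hle : D * a ≤ X := (Nat.le_div_iff_mul_le ha0).1 (Finset.mem_Icc.1 hD1).2
    refine ⟨⟨⟨Nat.mul_pos (Finset.mem_Icc.1 hD1).1 ha0, hle⟩, ⟨⟨?_, ?_, ?_⟩, fun t => ?_⟩,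
      fun t => ?_⟩, ?_⟩
    · rw [← Int.squarefree_natAbs, natAbs_eps hε]
      exact hsq2
    · have h1 : (ε * ((D * a : ℕ) : ℤ)) % 4 = (ε * (((z.2 : ℕ) : ℤ) * (a : ℤ))) % 4 := by
        have h3 : (((D * a : ℕ) : ℤ)) % 4 = (((z.2 : ℕ) : ℤ) * (a : ℤ)) % 4 := by
          rw [← hD8]
          push_cast
          rw [Int.mul_emod ((D : ℤ) % 8), Int.emod_emod_of_dvd (D : ℤ) (by norm_num : (4 : ℤ) ∣ 8),
            ← Int.mul_emod]
        rw [Int.mul_emod, h3, ← Int.mul_emod]
      rw [h1]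
      exact hz3
    · intro h7
      have h1 : (7 : ℕ) ∣ D * a := by
        have h2 := Int.natCast_dvd.1 (show ((7 : ℕ) : ℤ) ∣ ε * ((D * a : ℕ) : ℤ) by exact_mod_cast h7)
        rwa [natAbs_eps hε] at h2
      exact (hDp 7 (Nat.mem_primeFactors.2 ⟨by norm_num, h1, hsq2.ne_zero⟩)).2.2 rfl
    · rw [hpfm, symm_split hdis he (sub_WU U t), dlt_union, hC.2.1, hz2 t t₀]
      · ring
      · exact Finset.disjoint_of_subset_right (symm_sub he (sub_WU U t)) hdis
    · rw [hpfm, symm_split hdis he (sub_WU U t)]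
      exact hR t
    · show ((D * a).primeFactors ∩ W, (D * a / ∏ p ∈ (D * a).primeFactors ∩ W, p) % 8) = z
      rw [hpfm, hin, Nat.mul_div_cancel _ ha0, hD8]
  · intro D hD
    obtain ⟨hD0, hFz⟩ := Finset.mem_filter.1 hD
    obtain ⟨hD1, hDB, hR⟩ := Finset.mem_filter.1 hD0
    have e1 : D.primeFactors ∩ W = z.1 := congrArg Prod.fst hFz
    have h1 := key D (hsq D hDB)
    rw [e1] at h1
    show D / a * a = D
    rw [mul_comm]
    exact h1
  · intro D hD
    exact Nat.mul_div_cancel _ ha0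

end Pool.Agent.NH4.PF
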