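import Pool.Agent.NH4.PF.Fin
import Pool.Agent.NH5.LK.Fin
import Pool.Agent.Y687.MQ.Crit

/-!
# Multiquadratic fields and the complete class: the parts of the main theorem
-/

set_option autoImplicit false
set_option linter.style.haveILetI false

open scoped Classical

namespace Pool.Agent.NH4.PF

open Finset
open Pool.Agent.NH5.PR (eta Gd)
open Pool.Agent.NH5.GD (Adm Good)
open Pool.Agent.NH5.LK (nA nB NoSel Full)
open Pool.Agent.NH1 (sq2 sq7 sS sI sA sB gX)
open Pool.Agent.NH4.PJ (dlt)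
open Pool.Agent.Y703.CX (eL)
open Pool.Agent.Y687 (WB)
open Pool.Agent.Y687.MQ (ZB ZB_of_WB ZB_scale mq_zero disc_ne)
open Pool.Agent.Y19.QT (EK IsLFunK)

theorem adm_iff {D : ℤ} : AdmZ D ↔ Adm D :=
  ⟨fun h => ⟨h.1, h.2.1, h.2.2⟩, fun h => ⟨h.sqf, h.m4, h.n7⟩⟩

theorem dlt_iff {D : ℤ} : dlt (pf D) = 0 ↔ nA D = nB D := by
  unfold dlt pf nA nB
  omega

/-- the good sets -/
theorem gg_iff {D : ℤ} (hA : Adm D) : Gg gX (pf D) ↔ (nB D ≤ nA D ∧ NoSel D) := by
  unfold Gg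
  rw [dlt_iff]
  constructor
  · rintro ⟨h1, h2⟩
    exact ⟨le_of_eq h1.symm, (Pool.Agent.NH5.LK.nosel_bal hA h1).2
      ((Pool.Agent.NH5.LK.gd_good hA h1).1 h2)⟩
  · rintro ⟨h1, h2⟩
    have h3 : nA D = nB D := le_antisymm (Pool.Agent.NH5.LK.nosel_le hA h2) h1
    exact ⟨h3, (Pool.Agent.NH5.LK.gd_good hA h3).2 ((Pool.Agent.NH5.LK.nosel_bal hA h3).1 h2)⟩

/-- the `L`-function and the points -/
theorem wb_of {D : ℤ} (hA : Adm D) (hc : nB D ≤ nA D) (h : NoSel D) : WB D := by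
  by_cases h1 : D = 1
  · rw [h1]
    exact Pool.Agent.Y687.MQ.WB_one
  · have he : nA D = nB D := le_antisymm (Pool.Agent.NH5.LK.nosel_le hA h) hc
    have hF : Full D := Pool.Agent.NH5.LK.full_ev hA h1 hc (by
      have : (sA D.natAbs.primeFactors).card = (sB D.natAbs.primeFactors).card := he
      omega)
    obtain ⟨-, ⟨f, hf⟩, y, y1, -, c3⟩ := hF
    have hy : Odd y := y1.2 ((Pool.Agent.NH5.LK.nosel_iff hA.m4).1 h)
    have hy0 : y ≠ 0 := by
      rintro rfl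
      exact absurd hy (by decide)
    exact ⟨Pool.Agent.NH5.LK.inc_of hA.m4 hf ((c3 f hf).1 hy0),
      Pool.Agent.NH5.LK.finite_pts (Pool.Agent.NH5.LK.disc_ne hA.n0) h.1⟩

/-- **the theorem over multiquadratic fields** -/
theorem field_zero {n : ℕ} {M : ℤ} {d : Fin n → ℤ} (h : PO (Gg gX) d M) (hind : Ind d) (K : Type)
    [Field K] [NumberField K] (x : Fin n → K) (hx : ∀ i, x i ^ 2 = (d i : K))
    (hK : IntermediateField.adjoin ℚ (Set.range x) = ⊤) :
    (∃ F : ℂ → ℂ, IsLFunK K (5805 * M ^ 2) (-285714 * M ^ 3) (∏ i, d i) F ∧ F 1 ≠ 0) ∧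
      Finite (EK K (5805 * M ^ 2) (-285714 * M ^ 3)) := by
  have hab : (4 * 5805 ^ 3 + 27 * (-285714) ^ 2 : ℤ) ≠ 0 := by norm_num
  have hM : M ≠ 0 := by
    obtain ⟨D, k, h1, -, h2, h3⟩ := h ∅
    rw [Finset.prod_empty, mul_one] at h3
    rw [h3]
    exact mul_ne_zero h1.1.ne_zero (pow_ne_zero 2 h2)
  refine mq_zero hind (disc_ne hab hM) ?_ K x hx hK
  intro S
  obtain ⟨D, k, h1, h2, h3, h4⟩ := h S
  have hA := adm_iff.1 h1
  obtain ⟨g1, g2⟩ := (gg_iff hA).1 h2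
  have e1 : 5805 * M ^ 2 * (∏ i ∈ S, d i) ^ 2 = 5805 * (D * k ^ 2) ^ 2 := by
    rw [← h4]; ring
  have e2 : -285714 * M ^ 3 * (∏ i ∈ S, d i) ^ 3 = -285714 * (D * k ^ 2) ^ 3 := by
    rw [← h4]; ring
  rw [e1, e2]
  exact ZB_scale hab hA.n0 h3 (ZB_of_WB (wb_of hA g1 g2))

/-! ### The forms of the conditions used in the hand-ins -/

theorem up_good {N : ℤ} : Up (Gg gX) N ↔
    ∃ D k : ℤ, (Adm D ∧ nB D ≤ nA D ∧ NoSel D) ∧ k ≠ 0 ∧ N = D * k ^ 2 := by
  constructor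
  · rintro ⟨D, k, h1, h2, h3, h4⟩
    have hA := adm_iff.1 h1
    exact ⟨D, k, ⟨hA, (gg_iff hA).1 h2⟩, h3, h4⟩
  · rintro ⟨D, k, ⟨h1, h2⟩, h3, h4⟩
    exact ⟨D, k, adm_iff.2 h1, (gg_iff h1).2 h2, h3, h4⟩

theorem up_bal {N : ℤ} : Up Bl N ↔
    ∃ D k : ℤ, (Adm D ∧ nA D = nB D) ∧ k ≠ 0 ∧ N = D * k ^ 2 := by
  constructor
  · rintro ⟨D, k, h1, h2, h3, h4⟩
    exact ⟨D, k, ⟨adm_iff.1 h1, dlt_iff.1 h2⟩, h3, h4⟩
  · rintro ⟨D, k, ⟨h1, h2⟩, h3, h4⟩
    exact ⟨D, k, adm_iff.2 h1, dlt_iff.2 h2, h3, h4⟩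

/-- **the proportion of the twists, unconditionally** -/
theorem twists {n : ℕ} {d : Fin n → ℤ} (hd : Ind d) (hex : ∃ M : ℤ, PO Bl d M) {ε : ℤ}
    (hε : ε = 1 ∨ ε = -1) :
    Filter.Tendsto (fun X : ℕ =>
      (((Icc 1 X).filter fun D : ℕ => Squarefree D ∧ PO (Gg gX) d (ε * D)).card : ℝ) /
        (((Icc 1 X).filter fun D : ℕ => Squarefree D ∧ PO Bl d (ε * D)).card : ℝ))
      Filter.atTop (nhds (eta ^ 2 ^ n)) ∧
    ∃ (c : ℝ) (X₀ : ℕ), 0 < c ∧ ∀ X : ℕ, X₀ ≤ X → c * X / Real.sqrt (Real.log (Real.log X)) ≤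
      (((Icc 1 X).filter fun D : ℕ => Squarefree D ∧ PO (Gg gX) d (ε * D)).card : ℝ) := by
  obtain ⟨M, hM⟩ := hex
  have h1 : Up Tr 1 := ⟨1, 1, ⟨squarefree_one, by norm_num, by norm_num⟩, trivial, one_ne_zero,
    by norm_num⟩
  obtain ⟨g1, c, X₀, hc, g2⟩ := prop_field Pool.Agent.NH4.PJ.f_JDEN Pool.Agent.NH4.PJ.t_LAW f_Low
    gX hd h1 ⟨M, by rw [one_mul]; exact hM⟩ hε
  simp only [one_mul] at g1 g2
  refine ⟨g1, c * (eta ^ 2 ^ n / 2), ?_⟩
  have heta : 0 < eta ^ 2 ^ n := pow_pos Pool.Agent.NH5.PR.t_ETA.2.1 _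
  have h2 : ∀ᶠ X : ℕ in Filter.atTop, eta ^ 2 ^ n / 2 <
      (((Icc 1 X).filter fun D : ℕ => Squarefree D ∧ PO (Gg gX) d (ε * D)).card : ℝ) /
        (((Icc 1 X).filter fun D : ℕ => Squarefree D ∧ PO Bl d (ε * D)).card : ℝ) :=
    g1.eventually_const_lt (by linarith)
  obtain ⟨X₁, hX₁⟩ := Filter.eventually_atTop.1 h2
  refine ⟨max (max X₀ X₁) 16, by positivity, fun X hX => ?_⟩
  have a1 : X₀ ≤ X := le_trans (le_trans (le_max_left _ _) (le_max_left _ _)) hX
  have a2 : X₁ ≤ X := le_trans (le_trans (le_max_right _ _) (le_max_left _ _)) hX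
  have a3 : 16 ≤ X := le_trans (le_max_right _ _) hX
  have b1 := g2 X a1
  have b2 := hX₁ X a2
  have hX0 : (0 : ℝ) < X := by
    have : 0 < X := by omega
    exact_mod_cast this
  have hs := Real.sqrt_pos.2 (eL_pos a3)
  have hpos : 0 < (((Icc 1 X).filter fun D : ℕ => Squarefree D ∧ PO Bl d (ε * D)).card : ℝ) :=
    lt_of_lt_of_le (by positivity) b1
  rw [lt_div_iff₀ hpos] at b2
  have e : c * (eta ^ 2 ^ n / 2) * X / Real.sqrt (Real.log (Real.log X)) =
      (eta ^ 2 ^ n / 2) * (c * X / Real.sqrt (eL X)) := by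
    unfold eL
    ring
  rw [e]
  exact (mul_le_mul_of_nonneg_left b1 (by positivity)).trans b2.le

/-- **the proportion of the extensions, unconditionally** -/
theorem extensions {n : ℕ} {d : Fin n → ℤ} (hd : Ind d) {M : ℤ} (hM : PO (Gg gX) d M) {ε : ℤ}
    (hε : ε = 1 ∨ ε = -1) :
    Filter.Tendsto (fun X : ℕ =>
      (((Icc 1 X).filter fun D : ℕ => Squarefree D ∧ (Ind (Fin.snoc d (ε * D) : Fin (n + 1) → ℤ) ∧
          PO (Gg gX) (Fin.snoc d (ε * D) : Fin (n + 1) → ℤ) M)).card : ℝ) /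
      (((Icc 1 X).filter fun D : ℕ => Squarefree D ∧ (Ind (Fin.snoc d (ε * D) : Fin (n + 1) → ℤ) ∧
          PO Bl (Fin.snoc d (ε * D) : Fin (n + 1) → ℤ) M)).card : ℝ))
      Filter.atTop (nhds (eta ^ 2 ^ n)) :=
  prop_ext Pool.Agent.NH4.PJ.f_JDEN Pool.Agent.NH4.PJ.t_LAW f_Low gX hd hM hε

/-! ### Quadratic fields -/

theorem sA_union {S T : Finset ℕ} (h : Disjoint S T) :
    (sA (S ∪ T)).card = (sA S).card + (sA T).card := by
  unfold sA
  rw [Finset.filter_union, Finset.card_union_of_disjoint]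
  exact Finset.disjoint_filter_filter h

theorem sB_union {S T : Finset ℕ} (h : Disjoint S T) :
    (sB (S ∪ T)).card = (sB S).card + (sB T).card := by
  unfold sB
  rw [Finset.filter_union, Finset.card_union_of_disjoint]
  exact Finset.disjoint_filter_filter h

/-- a set can be split into two parts with the same difference -/
theorem exists_half {S : Finset ℕ} (h : ((sA S).card + (sB S).card) % 2 = 0) :
    ∃ e ⊆ S, dlt e = dlt (S \ e) := by
  have hsub : ∀ {V : Finset ℕ}, V ⊆ sA S → dlt V = V.card := by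
    intro V hV
    have h1 : sA V = V := Finset.filter_true_of_mem fun p hp => (Finset.mem_filter.1 (hV hp)).2
    have h2 : sB V = ∅ := Finset.filter_false_of_mem fun p hp hp2 =>
      hp2.1 (Finset.mem_filter.1 (hV hp)).2.1
    unfold dlt
    rw [h1, h2, Finset.card_empty]
    push_cast
    ring
  have hsub' : ∀ {V : Finset ℕ}, V ⊆ sB S → dlt V = -V.card := by
    intro V hV
    have h1 : sB V = V := Finset.filter_true_of_mem fun p hp => (Finset.mem_filter.1 (hV hp)).2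
    have h2 : sA V = ∅ := Finset.filter_false_of_mem fun p hp hp2 =>
      (Finset.mem_filter.1 (hV hp)).2.1 hp2.1
    unfold dlt
    rw [h1, h2, Finset.card_empty]
    push_cast
    ring
  have hadd : ∀ e ⊆ S, dlt S = dlt e + dlt (S \ e) := by
    intro e he
    rw [← dlt_union Finset.disjoint_sdiff, Finset.union_sdiff_of_subset he]
  have hdS : dlt S = ((sA S).card : ℤ) - (sB S).card := rfl
  rcases le_total (sB S).card (sA S).card with hc | hc
  · obtain ⟨V, hV, hVc⟩ := Finset.exists_subset_card_eq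
      (show ((sA S).card - (sB S).card) / 2 ≤ (sA S).card by omega)
    have hVS : V ⊆ S := hV.trans (Finset.filter_subset _ _)
    refine ⟨V, hVS, ?_⟩
    have h1 := hadd V hVS
    have h2 := hsub hV
    omega
  · obtain ⟨V, hV, hVc⟩ := Finset.exists_subset_card_eq
      (show ((sB S).card - (sA S).card) / 2 ≤ (sB S).card by omega)
    have hVS : V ⊆ S := hV.trans (Finset.filter_subset _ _)
    refine ⟨V, hVS, ?_⟩
    have h1 := hadd V hVS
    have h2 := hsub' hV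
    omega

/-- the quadratic fields which occur -/
theorem quadratic {D : ℤ} (hD : Adm D) (h : (nA D + nB D) % 2 = 0) :
    ∃ M : ℤ, PO Bl (fun _ : Fin 1 => D) M := by
  obtain ⟨e, he, hd⟩ := exists_half (S := pf D) h
  have hpm := (adm_iff.2 hD).pm
  obtain ⟨T, hT, hTv⟩ := Pool.Agent.NH4.PJ.exists_T (∏ p ∈ pf D, p)
    (Finset.prod_pos fun p hp => (hpm p hp).1.pos) (- dlt e)
  have hTpm : PmS T := by
    intro p hp
    obtain ⟨h1, h2⟩ := hT p hp
    refine ⟨h1, ?_, ?_⟩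
    · rintro rfl
      exact h2 (Dvd.dvd.mul_right (by norm_num) _)
    · rintro rfl
      exact h2 (Dvd.dvd.mul_right (by norm_num) _)
  have hdis : Disjoint T (pf D) := by
    rw [Finset.disjoint_left]
    intro p hp hpD
    exact (hT p hp).2 (Dvd.dvd.mul_left (Finset.dvd_prod_of_mem (fun p => p) hpD) 14)
  have hS : PmS (T ∪ e) := hTpm.union (hpm.mono he)
  refine ⟨DS (T ∪ e), fun S => ?_⟩
  have hb1 : Bl (T ∪ e) := by
    unfold Bl
    rw [dlt_union (Finset.disjoint_of_subset_right he hdis), hTv]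
    ring
  have hb2 : Bl (symmDiff (T ∪ e) (pf D)) := by
    unfold Bl
    rw [symm_split hdis he (Finset.Subset.refl _), dlt_union]
    · have h1 : symmDiff e (pf D) = pf D \ e := by
        rw [symmDiff_def, Finset.sup_eq_union, Finset.sdiff_eq_empty_iff_subset.2 he,
          Finset.empty_union]
      rw [h1, hTv, ← hd]
      ring
    · exact Finset.disjoint_of_subset_right (symm_sub he (Finset.Subset.refl _)) hdis
  have hS2 : S = ∅ ∨ S = univ := by
    rcases S.eq_empty_or_nonempty with h1 | h1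
    · exact Or.inl h1
    · right
      obtain ⟨i, hi⟩ := h1
      rw [Finset.eq_univ_iff_forall]
      intro j
      rw [Subsingleton.elim j i]
      exact hi
  rcases hS2 with rfl | rfl
  · rw [Finset.prod_empty, mul_one]
    exact (up_iff hS one_ne_zero (by rw [one_pow, mul_one])).2 hb1
  · rw [Finset.prod_const, Finset.card_univ, Fintype.card_fin, pow_one]
    obtain ⟨m, hm, h2⟩ := mul_set (N := DS (T ∪ e)) (M := D) (k := 1) (l := 1) one_ne_zero
      one_ne_zero hS (by ring) (T := pf D) (by rw [(adm_iff.2 hD).DS]; ring)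
    exact (up_iff (hS.symmDiff hpm) hm h2).2 hb2

end Pool.Agent.NH4.PF
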