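import Pool.Agent.NH4.PF.Den

/-!
# Multiquadratic fields and the complete class: the proportion, continued
-/

set_option autoImplicit false
set_option linter.style.haveILetI false
set_option linter.unusedVariables false

open scoped Classical

namespace Pool.Agent.NH4.PF

open Finset
open Pool.Agent.NH4.PJ (dlt Cl nk OkM Ev law S_JDEN LawP S_JLOW SS)
open Pool.Agent.NH5.PR (Sol Gd eta Ok)
open Pool.Agent.NH1 (sq2 sq7 sS sI sA sB)
open Pool.Agent.Y703.CX (eL)
open Pool.Agent.Y703.CQ (nr)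

/-- a trivial condition -/
def Tr (_ : Finset ℕ) : Prop := True

/-- the lower bound for the class, in numbers -/
def Low : Prop := ∀ (b r : ℕ) (v : ℤ), Ok b r → ∃ (c : ℝ) (X₀ : ℕ), 0 < c ∧
  ∀ X : ℕ, X₀ ≤ X → c * X / Real.sqrt (eL X) ≤ ((SS b r v X).card : ℝ)

/-- scaling of the lower bound -/
theorem scale_low {c : ℝ} {X₀ a : ℕ} (hc : 0 < c) (ha0 : 0 < a) {N : ℕ → ℝ}
    (hX : ∀ X : ℕ, X₀ ≤ X → c * X / Real.sqrt (eL X) ≤ N X) (X : ℕ) (hX1 : a * (X₀ + 16) ≤ X) :
    c / (2 * a) * X / Real.sqrt (eL X) ≤ N (X / a) := by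
  have haR : (0 : ℝ) < a := by exact_mod_cast ha0
  have hdiv : X₀ + 16 ≤ X / a := (Nat.le_div_iff_mul_le ha0).2 (by rw [mul_comm]; exact hX1)
  refine le_trans ?_ (hX (X / a) (by omega))
  have hXa : ((X : ℝ)) / (2 * a) ≤ ((X / a : ℕ) : ℝ) := by
    have h2 : X ≤ (X / a) * (2 * a) := by
      have h1 : X < X / a * a + a := Nat.lt_div_mul_add ha0
      nlinarith
    rw [div_le_iff₀ (by positivity)]
    exact_mod_cast h2
  have h16 : (16 : ℝ) ≤ ((X / a : ℕ) : ℝ) := by
    have : 16 ≤ X / a := by omega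
    exact_mod_cast this
  have hle : ((X / a : ℕ) : ℝ) ≤ (X : ℝ) := by exact_mod_cast Nat.div_le_self X a
  have hlog1 : 1 < Real.log ((X / a : ℕ) : ℝ) := by
    rw [Real.lt_log_iff_exp_lt (by linarith)]
    have := Real.exp_one_lt_d9
    linarith
  have heL : eL (X / a) ≤ eL X := by
    unfold eL
    exact Real.log_le_log (by linarith) (Real.log_le_log (by linarith) hle)
  have heL0 : 0 < eL (X / a) := Real.log_pos hlog1
  have hs0 : 0 < Real.sqrt (eL (X / a)) := Real.sqrt_pos.2 heL0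
  have hs1 : Real.sqrt (eL (X / a)) ≤ Real.sqrt (eL X) := Real.sqrt_le_sqrt heL
  calc c / (2 * a) * X / Real.sqrt (eL X) ≤ c / (2 * a) * X / Real.sqrt (eL (X / a)) := by
        exact div_le_div_of_nonneg_left (by positivity) hs0 hs1
    _ ≤ c * ((X / a : ℕ) : ℝ) / Real.sqrt (eL (X / a)) := by
        refine div_le_div_of_nonneg_right ?_ hs0.le
        calc c / (2 * a) * X = c * (X / (2 * a)) := by ring
          _ ≤ c * ((X / a : ℕ) : ℝ) := by gcongr

theorem eL_pos {X : ℕ} (hX : 16 ≤ X) : 0 < eL X := by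
  have h16 : (16 : ℝ) ≤ (X : ℝ) := by exact_mod_cast hX
  refine Real.log_pos ?_
  rw [Real.lt_log_iff_exp_lt (by linarith)]
  have := Real.exp_one_lt_d9
  linarith

variable {M : ℕ}

/-- the masks are admissible -/
theorem okM_of {U : Fin M → Finset ℕ} (hU : ∀ t, PmS (U t)) (hinj : Function.Injective U)
    {e : Finset ℕ} (he : e ⊆ WU U) : OkM (∏ p ∈ WU U, p) (fun t => symmDiff e (U t)) := by
  refine ⟨fun t t' h => hinj (symmDiff_right_injective _ h), fun t u hu => ?_⟩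
  have h1 : u ∈ WU U := symm_sub he (sub_WU U t) hu
  obtain ⟨t', -, ht'⟩ := Finset.mem_biUnion.1 h1
  obtain ⟨h2, h3, h4⟩ := hU t' u ht'
  exact ⟨h2, h3, h4, Finset.dvd_prod_of_mem (fun p => p) h1⟩

theorem WU_pos {U : Fin M → Finset ℕ} (hU : ∀ t, PmS (U t)) : 0 < ∏ p ∈ WU U, p := by
  refine Finset.prod_pos fun p hp => ?_
  obtain ⟨t, -, ht⟩ := Finset.mem_biUnion.1 hp
  exact (hU t p ht).1.pos

/-- **the proportion** -/
theorem prop_main (hJ : S_JDEN) (hLP : LawP) (hlow : Low) {ε : ℤ} (hε : ε = 1 ∨ ε = -1)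
    {U : Fin M → Finset ℕ} (hU : ∀ t, PmS (U t)) (hinj : Function.Injective U) (t₀ : Fin M)
    (f : ℕ → ZMod 2) (hex : ∃ S₀ : Finset ℕ, PmS S₀ ∧ ∀ t, dlt (symmDiff S₀ (U t)) = 0) :
    Filter.Tendsto (fun X : ℕ =>
      (((Icc 1 X).filter fun D => DB ε U D ∧ DG f U D).card : ℝ) /
        (((Icc 1 X).filter fun D => DB ε U D).card : ℝ)) Filter.atTop (nhds (eta ^ M)) ∧
    ∃ (c : ℝ) (X₀ : ℕ), 0 < c ∧ ∀ X : ℕ, X₀ ≤ X →
      c * X / Real.sqrt (eL X) ≤ (((Icc 1 X).filter fun D => DB ε U D).card : ℝ) := by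
  set W := WU U with hW
  set b := ∏ p ∈ WU U, p with hb
  have hb0 : 0 < b := WU_pos hU
  set Nz : Finset ℕ × ℕ → ℕ → ℕ := fun z X => ((Icc 1 (X / ∏ p ∈ z.1, p)).filter fun D =>
    Squarefree D ∧ Cl b z.2 (- dlt (symmDiff z.1 (U t₀))) D.primeFactors).card with hNz
  set Gz : Finset ℕ × ℕ → ℕ → ℕ := fun z X => ((Icc 1 (X / ∏ p ∈ z.1, p)).filter fun D =>
    Squarefree D ∧ Cl b z.2 (- dlt (symmDiff z.1 (U t₀))) D.primeFactors ∧
      Ev f (fun t => symmDiff z.1 (U t)) (fun _ => 0) D.primeFactors).card with hGz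
  have hN : ∀ X, ((Icc 1 X).filter fun D => DB ε U D).card = ∑ z ∈ Idx ε U, Nz z X := by
    intro X
    have h := card_split hε hU t₀ Tr X
    refine Eq.trans (congrArg Finset.card (Finset.filter_congr fun D _ => ?_)) (h.trans ?_)
    · exact ⟨fun h => ⟨h, fun _ => trivial⟩, fun h => h.1⟩
    refine Finset.sum_congr rfl fun z _ => ?_
    rw [hNz]
    refine congrArg Finset.card (Finset.filter_congr fun D _ => ?_)
    exact ⟨fun h => ⟨h.1, h.2.1⟩, fun h => ⟨h.1, h.2, fun _ => trivial⟩⟩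
  have hG : ∀ X, ((Icc 1 X).filter fun D => DB ε U D ∧ DG f U D).card =
      ∑ z ∈ Idx ε U, Gz z X := by
    intro X
    have h := card_split hε hU t₀ (Gd f) X
    refine Eq.trans (congrArg Finset.card (Finset.filter_congr fun D _ => ?_)) (h.trans ?_)
    · exact Iff.rfl
    refine Finset.sum_congr rfl fun z _ => ?_
    rw [hGz]
    refine congrArg Finset.card (Finset.filter_congr fun D _ => ?_)
    refine and_congr_right fun _ => and_congr_right fun _ => ?_
    exact forall_congr' fun t => nk_one_iff.symm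
  have hr : ∀ z ∈ Idx ε U, Ok b z.2 := by
    intro z hz
    have h1 := (Finset.mem_product.1 (Finset.mem_filter.1 hz).1).2
    simp only [Finset.mem_insert, Finset.mem_singleton] at h1
    exact ⟨hb0, h1⟩
  have hsub : ∀ z ∈ Idx ε U, z.1 ⊆ WU U := fun z hz =>
    Finset.mem_powerset.1 (Finset.mem_product.1 (Finset.mem_filter.1 hz).1).1
  have hapos : ∀ z ∈ Idx ε U, 0 < ∏ p ∈ z.1, p := by
    intro z hz
    refine Finset.prod_pos fun p hp => ?_
    obtain ⟨t, -, ht⟩ := Finset.mem_biUnion.1 (hsub z hz hp)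
    exact (hU t p ht).1.pos
  -- an index
  obtain ⟨S₀, hS₀, hS0⟩ := hex
  have hidx : ∃ z, z ∈ Idx ε U := by
    set e := S₀ ∩ WU U with he
    have hed : ∀ t, dlt (symmDiff e (U t)) = - dlt (S₀ \ WU U) := by
      intro t
      have h1 := hS0 t
      have hdis : Disjoint (S₀ \ WU U) (WU U) := Finset.sdiff_disjoint
      have hsp : S₀ = (S₀ \ WU U) ∪ e := by
        rw [he, Finset.sdiff_union_inter]
      rw [hsp, symm_split hdis Finset.inter_subset_right (sub_WU U t), dlt_union] at h1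
      · linarith
      · exact Finset.disjoint_of_subset_right
          (symm_sub Finset.inter_subset_right (sub_WU U t)) hdis
    have hodd : (∏ p ∈ e, p) % 2 = 1 := by
      refine Nat.odd_iff.1 (Finset.prod_induction _ Odd (fun a b ha hb => ha.mul hb) odd_one
        fun p hp => ?_)
      have := hS₀ p (Finset.mem_inter.1 hp).1
      exact this.1.odd_of_ne_two this.2.1
    have h4 : ∃ r : ℕ, r ∈ ({1, 3, 5, 7} : Finset ℕ) ∧
        (ε * ((r : ℤ) * (∏ p ∈ e, p : ℕ))) % 4 = 1 := by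
      set a : ℕ := ∏ p ∈ e, p with ha
      have h5 : a % 4 = 1 ∨ a % 4 = 3 := by omega
      rcases hε with rfl | rfl
      · rcases h5 with h5 | h5
        · refine ⟨1, by simp, ?_⟩
          push_cast
          omega
        · refine ⟨3, by simp, ?_⟩
          push_cast
          omega
      · rcases h5 with h5 | h5
        · refine ⟨3, by simp, ?_⟩
          push_cast
          omega
        · refine ⟨1, by simp, ?_⟩
          push_cast
          omega
    obtain ⟨r, hr1, hr2⟩ := h4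
    refine ⟨(e, r), Finset.mem_filter.2 ⟨Finset.mem_product.2
      ⟨Finset.mem_powerset.2 Finset.inter_subset_right, hr1⟩, fun t t' => ?_, hr2⟩⟩
    show dlt (symmDiff e (U t)) = dlt (symmDiff e (U t'))
    rw [hed, hed]
  obtain ⟨z₀, hz₀⟩ := hidx
  -- the lower bound
  have hlb : ∃ (c : ℝ) (X₀ : ℕ), 0 < c ∧ ∀ X : ℕ, X₀ ≤ X →
      c * X / Real.sqrt (eL X) ≤ (((Icc 1 X).filter fun D => DB ε U D).card : ℝ) := by
    obtain ⟨c, X₀, hc, hX⟩ := hlow b z₀.2 (- dlt (symmDiff z₀.1 (U t₀))) (hr z₀ hz₀)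
    refine ⟨c / (2 * (∏ p ∈ z₀.1, p : ℕ)), (∏ p ∈ z₀.1, p) * (X₀ + 16), ?_, fun X hX1 => ?_⟩
    · have := hapos z₀ hz₀
      have h2 : (0 : ℝ) < (∏ p ∈ z₀.1, p : ℕ) := by exact_mod_cast this
      positivity
    · refine (scale_low hc (hapos z₀ hz₀) hX X hX1).trans ?_
      rw [hN X]
      have h1 : (SS b z₀.2 (- dlt (symmDiff z₀.1 (U t₀))) (X / ∏ p ∈ z₀.1, p)).card = Nz z₀ X := by
        have h2 := Pool.Agent.NH4.PJ.card_eq b z₀.2 (- dlt (symmDiff z₀.1 (U t₀)))
          (X / ∏ p ∈ z₀.1, p) (fun _ => True)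
        rw [Finset.filter_true] at h2
        simp only [and_true] at h2
        rw [← h2]
      rw [h1]
      exact_mod_cast Finset.single_le_sum (f := fun z => Nz z X) (fun _ _ => Nat.zero_le _) hz₀
  refine ⟨?_, hlb⟩
  have hmain := ratio_sum (Idx ε U) Gz Nz (eta ^ M) ?_ ?_ ?_
  · refine hmain.congr fun X => ?_
    rw [hN X, hG X]
  · intro z hz X
    refine Finset.card_le_card fun D hD => ?_
    obtain ⟨h1, h2, h3, h4⟩ := Finset.mem_filter.1 hD
    exact Finset.mem_filter.2 ⟨h1, h2, h3⟩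
  · intro z hz
    have h1 := hJ M b z.2 (- dlt (symmDiff z.1 (U t₀))) f (fun t => symmDiff z.1 (U t))
      (fun _ => 0) (hr z hz) (okM_of hU hinj (hsub z hz))
    have h2 : ∏ i : Fin M, law (- dlt (symmDiff z.1 (U t₀)) + dlt (symmDiff z.1 (U i))) 0 =
        eta ^ M := by
      rw [Finset.prod_congr rfl fun i _ => ?_, Finset.prod_const, Finset.card_univ,
        Fintype.card_fin]
      rw [(Finset.mem_filter.1 hz).2.1 i t₀, neg_add_cancel, hLP.zero]
    rw [h2] at h1
    have h3 : Filter.Tendsto (fun X : ℕ => X / ∏ p ∈ z.1, p) Filter.atTop Filter.atTop :=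
      Nat.tendsto_div_const_atTop (hapos z hz).ne'
    exact h1.comp h3
  · obtain ⟨c, X₀, hc, hX⟩ := hlb
    filter_upwards [Filter.eventually_ge_atTop (max X₀ 16)] with X hX1
    have h1 := hX X (le_trans (le_max_left _ _) hX1)
    have h2 : 16 ≤ X := le_trans (le_max_right _ _) hX1
    have h3 : (0 : ℝ) < X := by
      have : 0 < X := by omega
      exact_mod_cast this
    have h4 : 0 < c * X / Real.sqrt (eL X) :=
      div_pos (mul_pos hc h3) (Real.sqrt_pos.2 (eL_pos h2))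
    rw [hN X] at h1
    exact_mod_cast lt_of_lt_of_le h4 h1

end Pool.Agent.NH4.PF
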