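import Pool.Agent.NH4.PJ.Fin
import Pool.Agent.NH4.PF.Fld

/-!
# Multiquadratic fields and the complete class: unconditional forms
-/

set_option autoImplicit false

open scoped Classical

namespace Pool.Agent.NH4.PF

open Finset
open Pool.Agent.NH5.PR (eta)
open Pool.Agent.Y703.CX (eL)

theorem f_Low : Low := PJ.t_JLOW Pool.Agent.NH5.PR.f_LOW Pool.Agent.Y405.CQ.t_MER

end Pool.Agent.NH4.PF
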