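import Pool.Agent.NH4.PJ.Stm

/-!
# Multiquadratic fields and the complete class: square classes and sets of primes
-/

set_option autoImplicit false
set_option linter.style.haveILetI false

open scoped Classical

namespace Pool.Agent.NH4.PF

open Finset
open Pool.Agent.NH4.PJ (dlt Cl nk OkM Ev law)
open Pool.Agent.NH5.PR (Sol Gd)

/-! ### Square classes -/

theorem sqf_unique_nat {D D' k k' : ℕ} (hD : Squarefree D) (hD' : Squarefree D') (hk : k ≠ 0)
    (hk' : k' ≠ 0) (h : D * k ^ 2 = D' * k' ^ 2) : D = D' := by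
  refine Nat.eq_of_factorization_eq hD.ne_zero hD'.ne_zero fun p => ?_
  have h1 : (D * k ^ 2).factorization p = (D' * k' ^ 2).factorization p := by rw [h]
  rw [Nat.factorization_mul hD.ne_zero (pow_ne_zero 2 hk),
    Nat.factorization_mul hD'.ne_zero (pow_ne_zero 2 hk'), Finsupp.add_apply, Finsupp.add_apply,
    Nat.factorization_pow, Nat.factorization_pow, Finsupp.smul_apply, Finsupp.smul_apply,
    smul_eq_mul, smul_eq_mul] at h1
  have h2 := hD.natFactorization_le_one p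
  have h3 := hD'.natFactorization_le_one p
  omega

theorem sqf_unique {D D' k k' : ℤ} (hD : Squarefree D) (hD' : Squarefree D') (hk : k ≠ 0)
    (hk' : k' ≠ 0) (h : D * k ^ 2 = D' * k' ^ 2) : D = D' := by
  have h1 : D.natAbs * k.natAbs ^ 2 = D'.natAbs * k'.natAbs ^ 2 := by
    rw [← Int.natAbs_pow, ← Int.natAbs_pow, ← Int.natAbs_mul, ← Int.natAbs_mul, h]
  have h2 := sqf_unique_nat (Int.squarefree_natAbs.2 hD) (Int.squarefree_natAbs.2 hD')
    (Int.natAbs_ne_zero.2 hk) (Int.natAbs_ne_zero.2 hk') h1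
  rcases Int.natAbs_eq_natAbs_iff.1 h2 with e | e
  · exact e
  · exfalso
    have h3 : 0 < k ^ 2 := by positivity
    have h4 : 0 < k' ^ 2 := by positivity
    have h5 : D' ≠ 0 := hD'.ne_zero
    rw [e] at h
    have h6 : D' * (k ^ 2 + k' ^ 2) = 0 := by linarith
    rcases mul_eq_zero.1 h6 with h7 | h7
    · exact h5 h7
    · omega

theorem isSquare_of_mul {x y z : ℤ} (hy : y ≠ 0) (h : x * y ^ 2 = z ^ 2) : IsSquare x := by
  have h1 : y ^ 2 ∣ z ^ 2 := ⟨x, by rw [← h]; ring⟩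
  obtain ⟨w, rfl⟩ := (Int.pow_dvd_pow_iff (by norm_num)).1 h1
  refine ⟨w, ?_⟩
  have h2 : y ^ 2 ≠ 0 := pow_ne_zero 2 hy
  apply mul_right_cancel₀ h2
  rw [h]
  ring

theorem prod_symmDiff {α : Type} [DecidableEq α] (g : α → ℤ) (S T : Finset α) :
    (∏ p ∈ S, g p) * ∏ p ∈ T, g p = (∏ p ∈ symmDiff S T, g p) * (∏ p ∈ S ∩ T, g p) ^ 2 := by
  have h1 : symmDiff S T = (S \ T) ∪ (T \ S) := rfl
  have hd : Disjoint (S \ T) (T \ S) := by
    rw [Finset.disjoint_left]
    intro a ha hb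
    exact (Finset.mem_sdiff.1 hb).2 (Finset.mem_sdiff.1 ha).1
  rw [h1, Finset.prod_union hd, ← Finset.prod_inter_mul_prod_sdiff S T,
    ← Finset.prod_inter_mul_prod_sdiff T S, Finset.inter_comm T S]
  ring

/-! ### The class -/

/-- the signed prime -/
def qs (q : ℕ) : ℤ := if q % 4 = 1 then q else -q

/-- the discriminant of a set of primes -/
def DS (S : Finset ℕ) : ℤ := ∏ q ∈ S, qs q

theorem qs_natAbs (q : ℕ) : (qs q).natAbs = q := by
  unfold qs
  split_ifs <;> simp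

theorem qs_mod {q : ℕ} (h : q % 2 = 1) : qs q % 4 = 1 := by
  unfold qs
  split_ifs <;> omega

theorem DS_natAbs (S : Finset ℕ) : (DS S).natAbs = ∏ q ∈ S, q := by
  unfold DS
  induction S using Finset.induction_on with
  | empty => simp
  | insert q T hq ih =>
    rw [Finset.prod_insert hq, Finset.prod_insert hq, Int.natAbs_mul, ih, qs_natAbs]

theorem DS_mod {S : Finset ℕ} (hS : ∀ q ∈ S, q % 2 = 1) : DS S % 4 = 1 := by
  unfold DS
  induction S using Finset.induction_on with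
  | empty => simp
  | insert q T hq ih =>
    rw [Finset.prod_insert hq, Int.mul_emod, qs_mod (hS q (Finset.mem_insert_self _ _)),
      ih fun q hq => hS q (Finset.mem_insert_of_mem hq)]
    norm_num

/-- odd primes different from seven -/
def PmS (S : Finset ℕ) : Prop := ∀ p ∈ S, p.Prime ∧ p ≠ 2 ∧ p ≠ 7

theorem PmS.mono {S T : Finset ℕ} (h : PmS T) (hST : S ⊆ T) : PmS S := fun p hp => h p (hST hp)

theorem PmS.symmDiff {S T : Finset ℕ} (hS : PmS S) (hT : PmS T) : PmS (symmDiff S T) := by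
  intro p hp
  rcases Finset.mem_symmDiff.1 hp with h | h
  · exact hS p h.1
  · exact hT p h.1

theorem PmS.union {S T : Finset ℕ} (hS : PmS S) (hT : PmS T) : PmS (S ∪ T) := by
  intro p hp
  rcases Finset.mem_union.1 hp with h | h
  · exact hS p h
  · exact hT p h

theorem PmS_empty : PmS ∅ := fun p hp => absurd hp (Finset.notMem_empty p)

/-- the discriminants: squarefree, `1` modulo four, prime to seven -/
def AdmZ (D : ℤ) : Prop := Squarefree D ∧ D % 4 = 1 ∧ ¬ (7 : ℤ) ∣ D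

/-- the prime factors -/
def pf (D : ℤ) : Finset ℕ := D.natAbs.primeFactors

theorem PmS.pf {S : Finset ℕ} (h : PmS S) : pf (DS S) = S := by
  unfold PF.pf
  rw [DS_natAbs]
  exact Nat.primeFactors_prod fun p hp => (h p hp).1

theorem PmS.sqf {S : Finset ℕ} (h : PmS S) : Squarefree (DS S) := by
  rw [← Int.squarefree_natAbs, DS_natAbs]
  refine Finset.squarefree_prod_of_pairwise_isCoprime (fun p hp q hq hpq => ?_)
    fun p hp => (h p hp).1.squarefree
  show IsRelPrime p q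
  rw [← Nat.coprime_iff_isRelPrime]
  exact (Nat.coprime_primes (h p hp).1 (h q hq).1).mpr hpq

theorem PmS.adm {S : Finset ℕ} (h : PmS S) : AdmZ (DS S) := by
  refine ⟨h.sqf, DS_mod fun q hq => Nat.odd_iff.1 ((h q hq).1.odd_of_ne_two (h q hq).2.1), ?_⟩
  intro h7
  have h1 : (7 : ℕ) ∣ (DS S).natAbs := Int.natCast_dvd.1 (by exact_mod_cast h7)
  have h2 : 7 ∈ PF.pf (DS S) :=
    Nat.mem_primeFactors.2 ⟨by norm_num, h1, Int.natAbs_ne_zero.2 h.sqf.ne_zero⟩
  rw [h.pf] at h2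
  exact (h 7 h2).2.2 rfl

theorem AdmZ.pm {D : ℤ} (h : AdmZ D) : PmS (pf D) := by
  intro p hp
  have hp1 := Nat.prime_of_mem_primeFactors hp
  have hp2 : (p : ℤ) ∣ D := Int.natCast_dvd.2 (Nat.dvd_of_mem_primeFactors hp)
  refine ⟨hp1, ?_, ?_⟩
  · rintro rfl
    have := h.2.1
    push_cast at hp2
    omega
  · rintro rfl
    exact h.2.2 (by exact_mod_cast hp2)

theorem AdmZ.DS {D : ℤ} (h : AdmZ D) : DS (pf D) = D := by
  have h1 : (PF.DS (pf D)).natAbs = D.natAbs := by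
    rw [DS_natAbs]
    exact Nat.prod_primeFactors_of_squarefree (Int.squarefree_natAbs.2 h.1)
  have h2 := h.pm.adm.2.1
  have h3 := h.2.1
  rcases Int.natAbs_eq_natAbs_iff.1 h1 with e | e
  · exact e
  · omega

theorem DS_mul (S T : Finset ℕ) : DS S * DS T = DS (symmDiff S T) * (DS (S ∩ T)) ^ 2 :=
  prod_symmDiff qs S T

theorem PmS.ne {S : Finset ℕ} (h : PmS S) : DS S ≠ 0 := h.sqf.ne_zero

/-! ### Properties up to squares -/

/-- up to squares a discriminant of the class with the property `P` -/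
def Up (P : Finset ℕ → Prop) (N : ℤ) : Prop :=
  ∃ D k : ℤ, AdmZ D ∧ P (pf D) ∧ k ≠ 0 ∧ N = D * k ^ 2

theorem up_iff {P : Finset ℕ → Prop} {S : Finset ℕ} (hS : PmS S) {N k : ℤ} (hk : k ≠ 0)
    (h : N = DS S * k ^ 2) : Up P N ↔ P S := by
  constructor
  · rintro ⟨D, m, hD, hP, hm, he⟩
    have h1 : D = DS S := sqf_unique hD.1 hS.sqf hm hk (by rw [← he, h])
    rw [h1, hS.pf] at hP
    exact hP
  · intro hP
    exact ⟨DS S, k, hS.adm, by rw [hS.pf]; exact hP, hk, h⟩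

theorem Up.mono {P Q : Finset ℕ → Prop} (h : ∀ S, P S → Q S) {N : ℤ} (hN : Up P N) : Up Q N := by
  obtain ⟨D, k, h1, h2, h3, h4⟩ := hN
  exact ⟨D, k, h1, h _ h2, h3, h4⟩

/-- the set of primes of a square class -/
theorem Up.set {P : Finset ℕ → Prop} {N : ℤ} (hN : Up P N) :
    ∃ S : Finset ℕ, PmS S ∧ P S ∧ ∃ k : ℤ, k ≠ 0 ∧ N = DS S * k ^ 2 := by
  obtain ⟨D, k, h1, h2, h3, h4⟩ := hN
  exact ⟨pf D, h1.pm, h2, k, h3, by rw [h1.DS, h4]⟩

/-- products of square classes -/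
theorem mul_set {N M k l : ℤ} {S T : Finset ℕ} (hk : k ≠ 0) (hl : l ≠ 0) (hS : PmS S)
    (hN : N = DS S * k ^ 2) (hM : M = DS T * l ^ 2) :
    ∃ m : ℤ, m ≠ 0 ∧ N * M = DS (symmDiff S T) * m ^ 2 := by
  refine ⟨DS (S ∩ T) * k * l, mul_ne_zero (mul_ne_zero ?_ hk) hl, ?_⟩
  · exact (hS.mono Finset.inter_subset_left).ne
  · rw [hN, hM]
    linear_combination (k ^ 2 * l ^ 2) * DS_mul S T

/-- independence modulo squares -/
def Ind {n : ℕ} (d : Fin n → ℤ) : Prop :=
  ∀ T : Finset (Fin n), T.Nonempty → ¬ IsSquare (∏ i ∈ T, d i)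

/-- all the square classes have the property -/
def PO (P : Finset ℕ → Prop) {n : ℕ} (d : Fin n → ℤ) (M : ℤ) : Prop :=
  ∀ T : Finset (Fin n), Up P (M * ∏ i ∈ T, d i)

/-- the sets of primes of the square classes -/
theorem exists_U {P : Finset ℕ → Prop} {n : ℕ} {d : Fin n → ℤ} (hd : Ind d) {M : ℤ}
    (hM : PO P d M) : ∃ U : Finset (Fin n) → Finset ℕ, Function.Injective U ∧
      ∀ T, PmS (U T) ∧ P (U T) ∧ ∃ k : ℤ, k ≠ 0 ∧ M * ∏ i ∈ T, d i = DS (U T) * k ^ 2 := by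
  choose U hU1 hU2 k hk he using fun T => (hM T).set
  refine ⟨U, fun T T' hTT => ?_, fun T => ⟨hU1 T, hU2 T, k T, hk T, he T⟩⟩
  by_contra hne
  have hne' : (symmDiff T T').Nonempty := by
    rw [Finset.nonempty_iff_ne_empty]
    intro h
    exact hne (symmDiff_eq_bot.1 h)
  have h1 := he T
  have h2 := he T'
  rw [hTT] at h1
  have h0 : ∀ i, d i ≠ 0 := by
    intro i h0
    refine hd {i} (Finset.singleton_nonempty i) ?_
    rw [Finset.prod_singleton, h0]
    exact ⟨0, by ring⟩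
  have hM0 : M ≠ 0 := by
    rintro rfl
    rw [zero_mul] at h1
    exact mul_ne_zero (hU1 T').ne (pow_ne_zero 2 (hk T)) h1.symm
  refine hd _ hne' (isSquare_of_mul (y := M * ∏ i ∈ T ∩ T', d i)
    (z := DS (U T') * k T * k T') ?_ ?_)
  · exact mul_ne_zero hM0 (Finset.prod_ne_zero_iff.2 fun i _ => h0 i)
  · have h3 := prod_symmDiff d T T'
    linear_combination (-M ^ 2) * h3 + (M * ∏ i ∈ T', d i) * h1 +
      (DS (U T') * k T ^ 2) * h2

end Pool.Agent.NH4.PF
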